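import Pool.Agent.Lib.MP_3e612f_nt.NF.X.Ap
import Pool.Agent.Lib.MP_3e612f_nt.NF.F.AO

/-! Nilrotations along arithmetic progressions, ordinary averages, null sets. -/

set_option autoImplicit false

namespace Pool.Agent.Lib.MP_3e612f_nt.NF

open Finset
open Pool.Agent.Lib.MP_3e612f_nt.MR (mu ex)

/-- Matomaki - Radziwill in residue classes depending on the window. -/
theorem mr_ap (Q : ℕ) (hQ : 1 ≤ Q) (ε : ℝ) (hε : 0 < ε) : ∃ H₀ : ℕ, ∀ H : ℕ, H₀ ≤ H → ∃ N₀ : ℕ, ∀ N : ℕ, N₀ ≤ N → ∀ b : ℕ → ℕ,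
    ∑ n ∈ Icc 1 N, ‖∑ h ∈ Icc 1 H, (mu (n + h) : ℂ) * (if h % Q = b n then 1 else 0)‖ ≤ ε * H * N := by
  have : NeZero Q := ⟨by omega⟩
  have hQ0 : (0 : ℝ) < Q := by exact_mod_cast hQ
  obtain ⟨h₀, hh⟩ := Pool.Agent.Lib.MP_3e612f_nt.MR.mr Q (ε / (2 * Q)) (by positivity)
  refine ⟨h₀, fun H hH => ?_⟩
  obtain ⟨X₀, hX⟩ := hh H hH
  obtain ⟨B, hB⟩ : ∃ B : ZMod Q → ℕ → ℝ, B = fun a x => |∑ i ∈ range H, (if (((x + i : ℕ)) : ZMod Q) = a then mu (x + i) else 0)| := ⟨_, rfl⟩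
  have hB0 : ∀ a x, 0 ≤ B a x := fun a x => by
    rw [hB]
    exact abs_nonneg _
  have hbS : ∀ X, X₀ ≤ X → ∀ a, ∑ x ∈ range X, B a x ≤ ε / (2 * Q) * H * X := by
    intro X hXX a
    have h1 := hX X hXX a
    refine le_trans (le_of_eq ?_) h1
    refine sum_congr rfl fun x _ => ?_
    rw [hB]
    beta_reduce
    refine congrArg _ (sum_congr rfl fun i _ => ?_)
    rfl
  have hnorm : ∀ n b, ‖∑ h ∈ Icc 1 H, (mu (n + h) : ℂ) * (if h % Q = b then 1 else 0)‖ ≤ ∑ a : ZMod Q, B a (n + 1) := by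
    intro n b
    by_cases hb : b < Q
    · have h1 : ∑ h ∈ Icc 1 H, (mu (n + h) : ℂ) * (if h % Q = b then 1 else 0) =
          ((∑ i ∈ range H, (if (((n + 1 + i : ℕ)) : ZMod Q) = ((n + b : ℕ) : ZMod Q) then mu (n + 1 + i) else 0) : ℝ) : ℂ) := by
        have h2 : Icc 1 H = Ico 1 (H + 1) := by
          ext x
          rw [mem_Icc, mem_Ico]
          omega
        rw [h2, sum_Ico_eq_sum_range, Complex.ofReal_sum, Nat.add_sub_cancel]
        refine sum_congr rfl fun i _ => ?_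
        rw [← add_assoc]
        have h3 : ((1 + i) % Q = b) ↔ ((((n + 1 + i : ℕ)) : ZMod Q) = ((n + b : ℕ) : ZMod Q)) := by
          rw [add_assoc n 1 i, Nat.cast_add n (1 + i), Nat.cast_add n b, add_right_inj, ZMod.natCast_eq_natCast_iff', Nat.mod_eq_of_lt hb]
        by_cases hc : (1 + i) % Q = b
        · rw [if_pos hc, if_pos (h3.1 hc), mul_one]
        · rw [if_neg hc, if_neg (fun h => hc (h3.2 h)), mul_zero, Complex.ofReal_zero]
      rw [h1, Complex.norm_real, Real.norm_eq_abs]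
      have h4 : |∑ i ∈ range H, (if (((n + 1 + i : ℕ)) : ZMod Q) = ((n + b : ℕ) : ZMod Q) then mu (n + 1 + i) else 0)| =
          B ((n + b : ℕ) : ZMod Q) (n + 1) := by rw [hB]
      rw [h4]
      exact single_le_sum (f := fun a => B a (n + 1)) (fun a _ => hB0 a _) (mem_univ _)
    · have h1 : ∑ h ∈ Icc 1 H, (mu (n + h) : ℂ) * (if h % Q = b then 1 else 0) = 0 := by
        refine sum_eq_zero fun h _ => ?_
        have := Nat.mod_lt h (show 0 < Q by omega)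
        rw [if_neg (by omega), mul_zero]
      rw [h1, norm_zero]
      exact sum_nonneg fun a _ => hB0 a _
  refine ⟨max X₀ 2, fun N hN b => ?_⟩
  have hN0 : X₀ ≤ N := (le_max_left _ _).trans hN
  have hN2 : 2 ≤ N := (le_max_right _ _).trans hN
  refine (sum_le_sum fun n _ => hnorm n (b n)).trans ?_
  rw [sum_comm]
  have h2 : ∀ a : ZMod Q, ∑ n ∈ Icc 1 N, B a (n + 1) ≤ ε / (2 * Q) * H * ((N + 2 : ℕ) : ℝ) := by
    intro a
    refine le_trans ?_ (hbS (N + 2) (by omega) a)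
    rw [← sum_image (f := B a) (g := fun m => m + 1) (s := Icc 1 N)
      (fun a _ c _ hac => Nat.succ_injective hac)]
    refine sum_le_sum_of_subset_of_nonneg ?_ fun x _ _ => hB0 a x
    intro x hx
    rw [mem_image] at hx
    obtain ⟨m, hm, rfl⟩ := hx
    rw [mem_Icc] at hm
    rw [mem_range]
    omega
  refine (sum_le_sum fun a _ => h2 a).trans ?_
  rw [sum_const, card_univ, ZMod.card, nsmul_eq_mul]
  have h3 : (Q : ℝ) * (ε / (2 * Q) * H * ((N + 2 : ℕ) : ℝ)) = ε / 2 * H * ((N + 2 : ℕ) : ℝ) := by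
    field_simp
  rw [h3]
  have h4 : (2 : ℝ) ≤ N := by exact_mod_cast hN2
  have h5 : 0 ≤ ε * H := by positivity
  push_cast
  nlinarith

/-- `part_ao` (F/AO) along a residue class modulo `Q` depending on the window. -/
theorem part_ap {G : Type} [Group G] [TopologicalSpace G] [IsTopologicalGroup G] {Γ : Subgroup G} {k : ℕ} (M : Mal G Γ k) (hk : LL G k = ⊥) (F : G → ℂ)
    (hF : Continuous F) (hΓ : ∀ x, ∀ γ ∈ Γ, F (x * γ) = F x) (Q : ℕ) (hQ : 1 ≤ Q) (ε : ℝ) (hε : 0 < ε) : ∃ B : ℕ, ∀ S : Set G,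
      (∀ m : M.I 0 → ℤ, m ≠ 0 → (∀ i, |m i| ≤ B) → Small 0 (Fr {x | ∃ g ∈ S, x = dot m (M.p 0 g)})) →
      ∃ H₀ : ℕ, ∀ H : ℕ, H₀ ≤ H → ∃ N₀ : ℕ, ∀ N : ℕ, N₀ ≤ N → ∀ g a : ℕ → G, ∀ b : ℕ → ℕ, (∀ n, g n ∈ S) →
        ∑ n ∈ Icc 1 N, ‖∑ h ∈ Icc 1 H, (mu (n + h) : ℂ) * (if h % Q = b n then F (g n ^ (h / Q) * a n) else 0)‖ ≤ ε * H * N := by
  have hadm : Adm Γ k F := by
    refine ⟨hF, hΓ, fun x h hh => ?_⟩
    rw [hk, Subgroup.mem_bot] at hh
    rw [hh, one_mul]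
  obtain ⟨c, C, hC, hbd, hpair⟩ := pairhyp_nil M hadm
  have hpair' := pairhyp_ap 1 _ _ hpair Q hQ
  obtain ⟨B, hB⟩ := windows_o 1 le_rfl (fun (o : (G × G) × ℕ) (n : ℕ) => if n % Q = o.2 then (F (o.1.1 ^ (n / Q) * o.1.2) - c) / C else 0)
    (fun o n => by
      beta_reduce
      split_ifs
      · rw [norm_div, Complex.norm_real, Real.norm_of_nonneg hC.le, div_le_one hC]
        exact hbd _
      · rw [norm_zero]
        exact zero_le_one)
    (fun o : (G × G) × ℕ => M.p 0 o.1.1) hpair' (ε / (2 * C)) (by positivity)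
  refine ⟨B, fun S hS => ?_⟩
  obtain ⟨H₁, hH₁⟩ := hB {o : (G × G) × ℕ | o.1.1 ∈ S} (by
    intro m hm hmB
    have h1 : {x | ∃ o ∈ {o : (G × G) × ℕ | o.1.1 ∈ S}, x = dot m (M.p 0 o.1.1)} = {x | ∃ g ∈ S, x = dot m (M.p 0 g)} := by
      ext x
      constructor
      · rintro ⟨o, ho, hx⟩
        exact ⟨o.1.1, ho, hx⟩
      · rintro ⟨g, hg, hx⟩
        exact ⟨((g, 1), 0), hg, hx⟩
    rw [h1]
    exact hS m hm hmB)
  have hc1 : 0 < ‖c‖ + 1 := by positivity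
  obtain ⟨H₂, hH₂⟩ := mr_ap Q hQ (ε / (2 * (‖c‖ + 1))) (by positivity)
  refine ⟨max H₁ H₂, fun H hH => ?_⟩
  obtain ⟨N₁, hN₁⟩ := hH₁ H ((le_max_left _ _).trans hH)
  obtain ⟨N₂, hN₂⟩ := hH₂ H ((le_max_right _ _).trans hH)
  refine ⟨max N₁ N₂, fun N hN g a b hg => ?_⟩
  have h1 := hN₁ N ((le_max_left _ _).trans hN) (fun n => ((g n, a n), b n)) (fun n => hg n)
  have h2 := hN₂ N ((le_max_right _ _).trans hN) b
  have h3 : ∀ n ∈ Icc 1 N, ‖∑ h ∈ Icc 1 H, (mu (n + h) : ℂ) * (if h % Q = b n then F (g n ^ (h / Q) * a n) else 0)‖ ≤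
      ‖c‖ * ‖∑ h ∈ Icc 1 H, (mu (n + h) : ℂ) * (if h % Q = b n then 1 else 0)‖ +
        C * ‖∑ h ∈ Icc 1 H, (mu (n + h) : ℂ) * (if h % Q = b n then (F (g n ^ (h / Q) * a n) - c) / C else 0)‖ := by
    intro n _
    have h4 : ∑ h ∈ Icc 1 H, (mu (n + h) : ℂ) * (if h % Q = b n then F (g n ^ (h / Q) * a n) else 0) =
        c * ∑ h ∈ Icc 1 H, (mu (n + h) : ℂ) * (if h % Q = b n then 1 else 0) +
          (C : ℂ) * ∑ h ∈ Icc 1 H, (mu (n + h) : ℂ) * (if h % Q = b n then (F (g n ^ (h / Q) * a n) - c) / C else 0) := by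
      rw [mul_sum, mul_sum, ← sum_add_distrib]
      refine sum_congr rfl fun h _ => ?_
      have hC' : (C : ℂ) ≠ 0 := by exact_mod_cast hC.ne'
      split_ifs
      · field_simp
        ring
      · ring
    rw [h4]
    have h5 := norm_add_le (c * ∑ h ∈ Icc 1 H, (mu (n + h) : ℂ) * (if h % Q = b n then 1 else 0))
      ((C : ℂ) * ∑ h ∈ Icc 1 H, (mu (n + h) : ℂ) * (if h % Q = b n then (F (g n ^ (h / Q) * a n) - c) / C else 0))
    rw [norm_mul, norm_mul, Complex.norm_real, Real.norm_of_nonneg hC.le] at h5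
    exact h5
  calc _ ≤ ∑ n ∈ Icc 1 N, (‖c‖ * ‖∑ h ∈ Icc 1 H, (mu (n + h) : ℂ) * (if h % Q = b n then 1 else 0)‖ +
        C * ‖∑ h ∈ Icc 1 H, (mu (n + h) : ℂ) * (if h % Q = b n then (F (g n ^ (h / Q) * a n) - c) / C else 0)‖) :=
        sum_le_sum h3
    _ = ‖c‖ * ∑ n ∈ Icc 1 N, ‖∑ h ∈ Icc 1 H, (mu (n + h) : ℂ) * (if h % Q = b n then 1 else 0)‖ +
        C * ∑ n ∈ Icc 1 N, ‖∑ h ∈ Icc 1 H, (mu (n + h) : ℂ) * (if h % Q = b n then (F (g n ^ (h / Q) * a n) - c) / C else 0)‖ := by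
        rw [sum_add_distrib, mul_sum, mul_sum]
    _ ≤ ‖c‖ * (ε / (2 * (‖c‖ + 1)) * H * N) + C * (ε / (2 * C) * H * N) :=
        add_le_add (mul_le_mul_of_nonneg_left h2 (norm_nonneg _)) (mul_le_mul_of_nonneg_left h1 hC.le)
    _ ≤ ε * H * N := by
        have e1 : C * (ε / (2 * C) * H * N) = ε / 2 * (H * N) := by
          field_simp
        have e2 : ‖c‖ * (ε / (2 * (‖c‖ + 1)) * H * N) ≤ ε / 2 * (H * N) := by
          have e3 : ‖c‖ * (ε / (2 * (‖c‖ + 1)) * H * N) =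
              (‖c‖ / (‖c‖ + 1)) * (ε / 2 * (H * N)) := by
            field_simp
          rw [e3]
          have e4 : ‖c‖ / (‖c‖ + 1) ≤ 1 := by
            rw [div_le_one hc1]
            linarith
          have e5 : 0 ≤ ε / 2 * ((H : ℝ) * N) := by positivity
          exact (mul_le_mul_of_nonneg_right e4 e5).trans (le_of_eq (one_mul _))
        rw [e1]
        linarith

end Pool.Agent.Lib.MP_3e612f_nt.NF
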