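import Pool.Agent.Lib.MP_3e612f_nt.NF.X.ApNil
import Pool.Agent.Lib.MP_3e612f_nt.NF.S.Approx
import Pool.Agent.Lib.MP_3e612f_nt.NF.S.Cpt

/-! Nilrotations over periodic bases: local uniformity at all points. -/

set_option autoImplicit false

namespace Pool.Agent.Lib.MP_3e612f_nt.NF

open Finset
open Pool.Agent.Lib.MP_3e612f_nt.MR (mu ex)

/-- the cocycle `u(τ^(n-1) w) … u(τ w) u(w)` -/
def coc {W G : Type} [Group G] (τ : W → W) (u : W → G) (n : ℕ) (w : W) : G := ((skew τ u)^[n] (w, 1)).2

theorem skew_fst {W G : Type} [Group G] (τ : W → W) (u : W → G) (n : ℕ) (p : W × G) : ((skew τ u)^[n] p).1 = τ^[n] p.1 := by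
  induction n with
  | zero => rfl
  | succ n ih =>
    rw [Function.iterate_succ_apply', Function.iterate_succ_apply', ← ih]
    rfl

theorem skew_iter {W G : Type} [Group G] (τ : W → W) (u : W → G) (n : ℕ) (w : W) (x : G) :
    (skew τ u)^[n] (w, x) = (τ^[n] w, coc τ u n w * x) := by
  refine Prod.ext (skew_fst τ u n (w, x)) ?_
  have h1 := skew_iter_right (S := τ) (g := u) n w 1 x
  rw [one_mul] at h1
  rw [h1]
  rfl

theorem coc_zero {W G : Type} [Group G] (τ : W → W) (u : W → G) (w : W) : coc τ u 0 w = 1 := rfl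

theorem coc_add {W G : Type} [Group G] (τ : W → W) (u : W → G) (n m : ℕ) (w : W) :
    coc τ u (n + m) w = coc τ u n (τ^[m] w) * coc τ u m w := by
  have h1 : (skew τ u)^[n + m] (w, 1) = (τ^[n] (τ^[m] w), coc τ u n (τ^[m] w) * coc τ u m w) := by
    rw [Function.iterate_add_apply, skew_iter τ u m w 1, mul_one, skew_iter]
  have h2 : coc τ u (n + m) w = ((skew τ u)^[n + m] (w, 1)).2 := rfl
  rw [h2, h1]

theorem coc_one {W G : Type} [Group G] (τ : W → W) (u : W → G) (w : W) : coc τ u 1 w = u w := by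
  change u w * 1 = u w
  rw [mul_one]

/-- a periodic base -/
theorem coc_per {W G : Type} [Group G] (τ : W → W) (u : W → G) (Q : ℕ) (hper : ∀ w, τ^[Q] w = w) (i r : ℕ) (w : W) :
    coc τ u (Q * i + r) w = coc τ u r w * coc τ u Q w ^ i := by
  have hQi : ∀ i : ℕ, ∀ w, τ^[Q * i] w = w := by
    intro i
    induction i with
    | zero => intro w; rfl
    | succ i ih =>
      intro w
      rw [Nat.mul_succ, Function.iterate_add_apply, hper, ih]
  have h1 : ∀ i : ℕ, coc τ u (Q * i) w = coc τ u Q w ^ i := by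
    intro i
    induction i with
    | zero => rw [mul_zero, pow_zero]; rfl
    | succ i ih =>
      rw [Nat.mul_succ, add_comm, coc_add, hQi, ih, pow_succ']
  rw [add_comm, coc_add, hQi, h1]

theorem iter_per {W : Type} (τ : W → W) (Q : ℕ) (hper : ∀ w, τ^[Q] w = w) (i r : ℕ) (w : W) : τ^[Q * i + r] w = τ^[r] w := by
  have hQi : ∀ i : ℕ, ∀ w, τ^[Q * i] w = w := by
    intro i
    induction i with
    | zero => intro w; rfl
    | succ i ih =>
      intro w
      rw [Nat.mul_succ, Function.iterate_add_apply, hper, ih]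
  rw [add_comm, Function.iterate_add_apply, hQi]

theorem coc_cont {W G : Type} [Group G] [TopologicalSpace W] [TopologicalSpace G] [IsTopologicalGroup G] {τ : W → W} (hτ : Continuous τ) {u : W → G} (hu : Continuous u) (n : ℕ) :
    Continuous (coc τ u n) := by
  have h1 : Continuous ((skew τ u)^[n]) := (skew_cont hτ hu).iterate n
  exact continuous_snd.comp (h1.comp (continuous_id.prodMk continuous_const))

/-- the frequencies of the return rotation -/
theorem dot_coc {G : Type} [Group G] [TopologicalSpace G] [IsTopologicalGroup G] {Γ : Subgroup G} {k : ℕ} (M : Mal G Γ k) (hk : 1 ≤ k)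
    {W : Type} (τ : W → W) (u : W → G) (m : M.I 0 → ℤ) (n : ℕ) (w : W) :
    dot m (M.p 0 (coc τ u n w)) = ∑ i ∈ range n, dot m (M.p 0 (u (τ^[i] w))) := by
  induction n with
  | zero =>
    rw [range_zero, sum_empty, coc_zero]
    have h1 : M.p 0 1 = M.p 0 1 + M.p 0 1 := by
      nth_rewrite 1 [← mul_one (1 : G)]
      exact M.p0_mul hk 1 1
    have h2 := congrArg (dot m) h1
    rw [dot_add] at h2
    linarith
  | succ n ih =>
    rw [sum_range_succ, add_comm n 1, coc_add, M.p0_mul hk, dot_add, ih, coc_one, add_comm]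

end Pool.Agent.Lib.MP_3e612f_nt.NF
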