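import Pool.Agent.Lib.MP_3e612f_nt.NF.P.PartPO
import Pool.Agent.Lib.MP_3e612f_nt.NF.P.NullSl

/-! Linear phases with frequencies in a closed null set, along residue classes. -/

set_option autoImplicit false

namespace Pool.Agent.Lib.MP_3e612f_nt.NF

open Finset
open Pool.Agent.Lib.MP_3e612f_nt.MR (mu ex)

/-- `part_po` for `t = 1`. -/
theorem null_one (K : Set ℝ) (hK : IsClosed K) (hper : ∀ x ∈ K, ∀ z : ℤ, x + z ∈ K) (h0 : MeasureTheory.volume K = 0) (ε : ℝ) (hε : 0 < ε) :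
    ∃ H₀ : ℕ, ∀ H : ℕ, H₀ ≤ H → ∃ N₀ : ℕ, ∀ N : ℕ, N₀ ≤ N → ∀ a : ℕ → ℝ, (∀ n, a n ∈ K) →
      ∑ n ∈ Icc 1 N, ‖∑ h ∈ Icc 1 H, (mu (n + h) : ℂ) * ex (a n * h)‖ ≤ ε * H * N := by
  have hK1 : IsClosed {x : Fin 1 → ℝ | x 0 ∈ K} := hK.preimage (continuous_apply 0)
  have hnull : NullP 1 {x : Fin 1 → ℝ | x 0 ∈ K} := by
    refine nullP_of_slices 1 _ fun s hs hs1 r => ?_
    obtain rfl : s = 1 := by omega
    have h1 : {x : Fin 1 → ℝ | (fun i : Fin 1 => if h : (i : ℕ) < 1 then x ⟨i, h⟩ else (r i : ℝ)) ∈ {x : Fin 1 → ℝ | x 0 ∈ K}} =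
        (MeasurableEquiv.funUnique (Fin 1) ℝ) ⁻¹' K := by
      ext x
      rfl
    rw [h1]
    exact ((MeasureTheory.volume_preserving_funUnique (Fin 1) ℝ).measure_preimage hK.measurableSet.nullMeasurableSet).trans h0
  obtain ⟨H₀, h1⟩ := part_po 1 le_rfl _ hK1 (fun x hx z => hper _ hx (z 0)) hnull ε hε
  refine ⟨H₀, fun H hH => ?_⟩
  obtain ⟨N₀, h1⟩ := h1 H hH
  refine ⟨N₀, fun N hN a ha => ?_⟩
  refine le_trans (le_of_eq ?_) (h1 N hN (fun n _ => a n) ha)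
  refine sum_congr rfl fun n _ => ?_
  congr 1
  refine sum_congr rfl fun h _ => ?_
  congr 2
  unfold pol
  rw [Fin.sum_univ_one]
  simp

/-- detection of a residue class -/
theorem ex_class (Q : ℕ) (hQ : 1 ≤ Q) (h b : ℕ) (hb : b < Q) :
    ∑ c ∈ range Q, ex (c * (((h : ℝ) - b) / Q)) = if h % Q = b then (Q : ℂ) else 0 := by
  have hQ0 : (Q : ℝ) ≠ 0 := by exact_mod_cast (by omega : Q ≠ 0)
  have h1 : ∀ c ∈ range Q, ex (c * (((h : ℝ) - b) / Q)) = ex (((h : ℝ) - b) / Q) ^ c := fun c _ => ex_nat_mul c _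
  rw [sum_congr rfl h1]
  by_cases hc : h % Q = b
  · rw [if_pos hc]
    have h2 : ((h : ℝ) - b) / Q = ((h / Q : ℕ) : ℝ) := by
      have h3 : (Q : ℝ) * ((h / Q : ℕ) : ℝ) + b = h := by
        have h4 := Nat.div_add_mod h Q
        rw [hc] at h4
        exact_mod_cast h4
      rw [div_eq_iff hQ0, ← h3]
      ring
    have h3 : ex (((h / Q : ℕ) : ℝ)) = 1 := by
      have h4 := ex_int ((h / Q : ℕ) : ℤ)
      rwa [Int.cast_natCast] at h4
    rw [h2, h3]
    simp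
  · rw [if_neg hc]
    have h2 : ex (((h : ℝ) - b) / Q) ≠ 1 := by
      intro h3
      unfold ex at h3
      rw [Complex.exp_eq_one_iff] at h3
      obtain ⟨z, hz⟩ := h3
      have h4 : ((((h : ℝ) - b) / Q : ℝ) : ℂ) = (z : ℂ) := by
        have h5 : (2 * Real.pi * Complex.I : ℂ) ≠ 0 := by
          have := Real.pi_ne_zero
          simp [this]
        refine mul_right_cancel₀ h5 ?_
        rw [← hz]
        push_cast
        ring
      have h5 : ((h : ℝ) - b) / Q = z := by exact_mod_cast h4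
      rw [div_eq_iff hQ0] at h5
      have h6 : (h : ℤ) - b = z * Q := by exact_mod_cast h5
      apply hc
      have h7 : (h : ℤ) % Q = b := by
        have h8 : (h : ℤ) = b + Q * z := by linarith
        rw [h8, Int.add_mul_emod_self_left]
        exact Int.emod_eq_of_lt (by omega) (by exact_mod_cast hb)
      exact_mod_cast h7
    have h3 : ex (((h : ℝ) - b) / Q) ^ Q = 1 := by
      rw [← ex_nat_mul]
      have h4 : (Q : ℝ) * (((h : ℝ) - b) / Q) = (((h : ℤ) - b : ℤ) : ℝ) := by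
        push_cast
        field_simp
      rw [h4, ex_int]
    have h4 := geom_sum_eq h2 Q
    rw [h4, h3, sub_self, zero_div]

/-- linear phases with null frequencies along residue classes -/
theorem null_ap (K : Set ℝ) (hK : IsClosed K) (hper : ∀ x ∈ K, ∀ z : ℤ, x + z ∈ K) (h0 : MeasureTheory.volume K = 0) (Q : ℕ) (hQ : 1 ≤ Q) (ε : ℝ) (hε : 0 < ε) :
    ∃ H₀ : ℕ, ∀ H : ℕ, H₀ ≤ H → ∃ N₀ : ℕ, ∀ N : ℕ, N₀ ≤ N → ∀ a : ℕ → ℝ, ∀ b : ℕ → ℕ, (∀ n, a n ∈ K) →
      ∑ n ∈ Icc 1 N, ‖∑ h ∈ Icc 1 H, (mu (n + h) : ℂ) * (if h % Q = b n then ex (a n * ((h / Q : ℕ) : ℝ)) else 0)‖ ≤ ε * H * N := by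
  have hQ0 : (0 : ℝ) < Q := by exact_mod_cast hQ
  have hK' : IsClosed {x : ℝ | (Q : ℝ) * x ∈ K} := hK.preimage (continuous_const.mul continuous_id)
  have hper' : ∀ x ∈ {x : ℝ | (Q : ℝ) * x ∈ K}, ∀ z : ℤ, x + z ∈ {x : ℝ | (Q : ℝ) * x ∈ K} := by
    intro x hx z
    have h1 := hper _ hx (Q * z)
    have h2 : (Q : ℝ) * (x + z) = Q * x + ((Q * z : ℤ) : ℝ) := by
      push_cast
      ring
    change (Q : ℝ) * (x + z) ∈ K
    rw [h2]
    exact h1
  have h0' : MeasureTheory.volume {x : ℝ | (Q : ℝ) * x ∈ K} = 0 := by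
    have h1 : {x : ℝ | (Q : ℝ) * x ∈ K} = (fun x => (Q : ℝ) * x) ⁻¹' K := rfl
    rw [h1, Real.volume_preimage_mul_left hQ0.ne', h0, mul_zero]
  obtain ⟨H₀, h1⟩ := null_one _ hK' hper' h0' ε hε
  refine ⟨H₀, fun H hH => ?_⟩
  obtain ⟨N₀, h1⟩ := h1 H hH
  refine ⟨N₀, fun N hN a b ha => ?_⟩
  have h2 : ∀ n ∈ Icc 1 N, ‖∑ h ∈ Icc 1 H, (mu (n + h) : ℂ) * (if h % Q = b n then ex (a n * ((h / Q : ℕ) : ℝ)) else 0)‖ ≤
      (1 / (Q : ℝ)) * ∑ c ∈ range Q, ‖∑ h ∈ Icc 1 H, (mu (n + h) : ℂ) * ex ((a n + c) / Q * h)‖ := by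
    intro n _
    by_cases hb : b n < Q
    · have h3 : ∀ h : ℕ, (if h % Q = b n then ex (a n * ((h / Q : ℕ) : ℝ)) else 0) =
          (1 / (Q : ℂ)) * ∑ c ∈ range Q, ex (-((a n + c) * b n / Q)) * ex ((a n + c) / Q * h) := by
        intro h
        have h4 : ∀ c ∈ range Q, ex (-((a n + c) * b n / Q)) * ex ((a n + c) / Q * h) =
            ex (a n * (((h : ℝ) - b n) / Q)) * ex (c * (((h : ℝ) - b n) / Q)) := by
          intro c _
          rw [← ex_add, ← ex_add]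
          congr 1
          ring
        rw [sum_congr rfl h4, ← mul_sum, ex_class Q hQ h (b n) hb]
        split_ifs with hc
        · have h5 : ((h : ℝ) - b n) / Q = ((h / Q : ℕ) : ℝ) := by
            have h3 : ((Q * (h / Q) + b n : ℕ) : ℝ) = h := by
              rw [← hc, Nat.div_add_mod]
            push_cast at h3
            rw [div_eq_iff hQ0.ne', ← h3]
            push_cast
            ring
          rw [h5]
          have h6 : (Q : ℂ) ≠ 0 := by exact_mod_cast (by omega : Q ≠ 0)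
          field_simp
        · ring
      have h7 : ∑ h ∈ Icc 1 H, (mu (n + h) : ℂ) * (if h % Q = b n then ex (a n * ((h / Q : ℕ) : ℝ)) else 0) =
          (1 / (Q : ℂ)) * ∑ c ∈ range Q, ex (-((a n + c) * b n / Q)) * ∑ h ∈ Icc 1 H, (mu (n + h) : ℂ) * ex ((a n + c) / Q * h) := by
        have h8 : ∀ c ∈ range Q, ex (-((a n + c) * b n / Q)) * ∑ h ∈ Icc 1 H, (mu (n + h) : ℂ) * ex ((a n + c) / Q * h) =
            ∑ h ∈ Icc 1 H, (mu (n + h) : ℂ) * (ex (-((a n + c) * b n / Q)) * ex ((a n + c) / Q * h)) := by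
          intro c _
          rw [mul_sum]
          exact sum_congr rfl fun h _ => by ring
        rw [sum_congr rfl h8, sum_comm, mul_sum]
        refine sum_congr rfl fun h _ => ?_
        rw [h3 h, ← mul_sum]
        ring
      rw [h7, norm_mul, norm_div, norm_one, Complex.norm_natCast]
      refine mul_le_mul_of_nonneg_left ?_ (by positivity)
      refine (norm_sum_le _ _).trans (sum_le_sum fun c _ => ?_)
      rw [norm_mul, norm_ex, one_mul]
    · have h3 : ∑ h ∈ Icc 1 H, (mu (n + h) : ℂ) * (if h % Q = b n then ex (a n * ((h / Q : ℕ) : ℝ)) else 0) = 0 := by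
        refine sum_eq_zero fun h _ => ?_
        have := Nat.mod_lt h (show 0 < Q by omega)
        rw [if_neg (by omega), mul_zero]
      rw [h3, norm_zero]
      exact mul_nonneg (by positivity) (sum_nonneg fun _ _ => norm_nonneg _)
  refine (sum_le_sum h2).trans ?_
  rw [← mul_sum, sum_comm]
  have h3 : ∀ c ∈ range Q, ∑ n ∈ Icc 1 N, ‖∑ h ∈ Icc 1 H, (mu (n + h) : ℂ) * ex ((a n + c) / Q * h)‖ ≤ ε * H * N := by
    intro c _
    refine h1 N hN (fun n => (a n + c) / Q) fun n => ?_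
    have h4 := hper _ (ha n) c
    have h5 : (Q : ℝ) * ((a n + c) / Q) = a n + ((c : ℤ) : ℝ) := by
      push_cast
      field_simp
    change (Q : ℝ) * ((a n + c) / Q) ∈ K
    rw [h5]
    exact h4
  have h4 := sum_le_sum h3
  rw [sum_const, card_range, nsmul_eq_mul] at h4
  have h5 : 1 / (Q : ℝ) * ∑ c ∈ range Q, ∑ n ∈ Icc 1 N, ‖∑ h ∈ Icc 1 H, (mu (n + h) : ℂ) * ex ((a n + c) / Q * h)‖ ≤
      1 / (Q : ℝ) * (Q * (ε * H * N)) := mul_le_mul_of_nonneg_left h4 (by positivity)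
  refine h5.trans (le_of_eq ?_)
  field_simp

end Pool.Agent.Lib.MP_3e612f_nt.NF
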