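import Pool.Agent.Lib.MP_3e612f_nt.NF.Base
import Pool.Agent.Lib.MP_3e612f_nt.LO.M.Unif

/-! Locally uniform functions on a system: closure properties. -/

set_option autoImplicit false

namespace Pool.Agent.Lib.MP_3e612f_nt.NF

open Finset
open Pool.Agent.Lib.MP_3e612f_nt.MR (mu ex)

/-- The Moebius function does not correlate with `f` along the orbits of `T` on almost all short intervals. -/
def GoodF {E : Type} (T : E → E) (f : E → ℂ) : Prop :=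
  ∀ ε : ℝ, 0 < ε → ∃ H₀ : ℕ, ∀ H : ℕ, H₀ ≤ H → ∃ N₀ : ℕ, ∀ N : ℕ, N₀ ≤ N → ∀ y : ℕ → E,
    ∑ n ∈ Icc 1 N, ‖∑ h ∈ Icc 1 H, (mu (n + h) : ℂ) * f (T^[h] (y n))‖ ≤ ε * H * N

private theorem gd_mu_le (n : ℕ) : ‖(mu n : ℂ)‖ ≤ 1 := by
  rw [Complex.norm_real, Real.norm_eq_abs]
  unfold mu
  have h := ArithmeticFunction.abs_moebius_le_one (n := n)
  have h2 : |((ArithmeticFunction.moebius n : ℤ) : ℝ)| = ((|ArithmeticFunction.moebius n| : ℤ) : ℝ) := by push_cast; rfl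
  rw [h2]
  exact_mod_cast h

theorem good_zero {E : Type} (T : E → E) : GoodF T (fun _ => 0) := by
  intro ε hε
  refine ⟨0, fun H _ => ⟨0, fun N _ y => ?_⟩⟩
  simp only [mul_zero, sum_const_zero, norm_zero]
  positivity

theorem good_add {E : Type} {T : E → E} {f g : E → ℂ} (hf : GoodF T f) (hg : GoodF T g) : GoodF T (fun z => f z + g z) := by
  intro ε hε
  obtain ⟨H₀, H1⟩ := hf (ε / 2) (by positivity)
  obtain ⟨H₀', H1'⟩ := hg (ε / 2) (by positivity)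
  refine ⟨max H₀ H₀', fun H hH => ?_⟩
  obtain ⟨N₀, H2⟩ := H1 H ((le_max_left _ _).trans hH)
  obtain ⟨N₀', H2'⟩ := H1' H ((le_max_right _ _).trans hH)
  refine ⟨max N₀ N₀', fun N hN y => ?_⟩
  have h3 := H2 N ((le_max_left _ _).trans hN) y
  have h3' := H2' N ((le_max_right _ _).trans hN) y
  have h4 : ∀ n ∈ Icc 1 N, ‖∑ h ∈ Icc 1 H, (mu (n + h) : ℂ) * (f (T^[h] (y n)) + g (T^[h] (y n)))‖ ≤
      ‖∑ h ∈ Icc 1 H, (mu (n + h) : ℂ) * f (T^[h] (y n))‖ + ‖∑ h ∈ Icc 1 H, (mu (n + h) : ℂ) * g (T^[h] (y n))‖ := by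
    intro n _
    simp only [mul_add, sum_add_distrib]
    exact norm_add_le _ _
  refine (sum_le_sum h4).trans ?_
  rw [sum_add_distrib]
  calc _ ≤ ε / 2 * H * N + ε / 2 * H * N := add_le_add h3 h3'
    _ = ε * H * N := by ring

theorem good_smul {E : Type} {T : E → E} {f : E → ℂ} (a : ℂ) (hf : GoodF T f) : GoodF T (fun z => a * f z) := by
  intro ε hε
  obtain ⟨H₀, H1⟩ := hf (ε / (‖a‖ + 1)) (by positivity)
  refine ⟨H₀, fun H hH => ?_⟩
  obtain ⟨N₀, H2⟩ := H1 H hH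
  refine ⟨N₀, fun N hN y => ?_⟩
  have h3 := H2 N hN y
  have h4 : ∀ n ∈ Icc 1 N, ‖∑ h ∈ Icc 1 H, (mu (n + h) : ℂ) * (a * f (T^[h] (y n)))‖ =
      ‖a‖ * ‖∑ h ∈ Icc 1 H, (mu (n + h) : ℂ) * f (T^[h] (y n))‖ := by
    intro n _
    rw [← norm_mul, mul_sum]
    congr 1
    exact sum_congr rfl fun h _ => by ring
  rw [sum_congr rfl h4, ← mul_sum]
  have h5 : 0 ≤ ∑ n ∈ Icc 1 N, ‖∑ h ∈ Icc 1 H, (mu (n + h) : ℂ) * f (T^[h] (y n))‖ :=
    sum_nonneg fun _ _ => norm_nonneg _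
  have h6 : ‖a‖ * ∑ n ∈ Icc 1 N, ‖∑ h ∈ Icc 1 H, (mu (n + h) : ℂ) * f (T^[h] (y n))‖ ≤
      (‖a‖ + 1) * (ε / (‖a‖ + 1) * H * N) :=
    mul_le_mul (by linarith) h3 h5 (by positivity)
  refine h6.trans (le_of_eq ?_)
  field_simp

theorem good_lim {E : Type} {T : E → E} {f : E → ℂ} (h : ∀ δ : ℝ, 0 < δ → ∃ g : E → ℂ, GoodF T g ∧ ∀ z, ‖f z - g z‖ ≤ δ) : GoodF T f := by
  intro ε hε
  obtain ⟨g, hg, hfg⟩ := h (ε / 2) (by positivity)
  obtain ⟨H₀, H1⟩ := hg (ε / 2) (by positivity)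
  refine ⟨H₀, fun H hH => ?_⟩
  obtain ⟨N₀, H2⟩ := H1 H hH
  refine ⟨N₀, fun N hN y => ?_⟩
  have h3 := H2 N hN y
  have h4 : ∀ n ∈ Icc 1 N, ‖∑ h ∈ Icc 1 H, (mu (n + h) : ℂ) * f (T^[h] (y n))‖ ≤
      ‖∑ h ∈ Icc 1 H, (mu (n + h) : ℂ) * g (T^[h] (y n))‖ + ε / 2 * H := by
    intro n _
    have e : ∑ h ∈ Icc 1 H, (mu (n + h) : ℂ) * f (T^[h] (y n)) =
        ∑ h ∈ Icc 1 H, (mu (n + h) : ℂ) * g (T^[h] (y n)) +
        ∑ h ∈ Icc 1 H, (mu (n + h) : ℂ) * (f (T^[h] (y n)) - g (T^[h] (y n))) := by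
      rw [← sum_add_distrib]
      exact sum_congr rfl fun h _ => by ring
    rw [e]
    refine (norm_add_le _ _).trans (add_le_add le_rfl ((norm_sum_le _ _).trans
      ((sum_le_card_nsmul _ _ (ε / 2) fun h _ => ?_).trans ?_)))
    · rw [norm_mul]
      exact (mul_le_of_le_one_left (norm_nonneg _) (gd_mu_le _)).trans (hfg _)
    · rw [Nat.card_Icc, Nat.add_sub_cancel, nsmul_eq_mul]
      exact le_of_eq (mul_comm _ _)
  refine (sum_le_sum h4).trans ?_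
  rw [sum_add_distrib, sum_const, Nat.card_Icc, Nat.add_sub_cancel, nsmul_eq_mul]
  calc _ ≤ ε / 2 * H * N + N * (ε / 2 * H) := add_le_add h3 le_rfl
    _ = ε * H * N := by ring

/-- from `GoodF` to the form used by `unif_models` -/
theorem lus_of_good {E : Type} [TopologicalSpace E] [CompactSpace E] {T : E → E} (hT : ∀ f : E → ℂ, Continuous f → GoodF T f) : LOM.LUS T Set.univ := by
  intro f hf ε hε
  obtain ⟨C, hC, hfC⟩ : ∃ C : ℝ, 0 < C ∧ ∀ z, ‖f z‖ ≤ C := by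
    obtain ⟨C, hC⟩ := (isCompact_univ (X := E)).exists_bound_of_continuousOn hf.continuousOn
    exact ⟨max C 1, lt_of_lt_of_le one_pos (le_max_right _ _), fun z => (hC z (Set.mem_univ _)).trans (le_max_left _ _)⟩
  obtain ⟨H₀, h1⟩ := hT f hf (ε / 4) (by positivity)
  refine ⟨max (H₀ + 1) ⌈4 * C / ε⌉₊, fun h hh => ?_⟩
  have hh1 : H₀ ≤ h - 1 := by
    have := (le_max_left _ _).trans hh
    omega
  have hh2 : 1 ≤ h := by
    have := (le_max_left _ _).trans hh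
    omega
  have hh3 : 4 * C / ε ≤ h := (Nat.le_ceil _).trans (by exact_mod_cast (le_max_right _ _).trans hh)
  obtain ⟨N₀, h1⟩ := h1 (h - 1) hh1
  refine ⟨max N₀ ⌈4 * C / ε⌉₊, fun N hN y _ => ?_⟩
  have hN1 : N₀ ≤ N := (le_max_left _ _).trans hN
  have hN3 : 4 * C / ε ≤ N := (Nat.le_ceil _).trans (by exact_mod_cast (le_max_right _ _).trans hN)
  rw [div_le_iff₀ hε] at hh3 hN3
  have h2 := h1 N hN1 y
  have h3 : ∀ x : ℕ, ‖∑ n ∈ range h, PI.mc (x + n) * f (T^[n] (y x))‖ ≤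
      C + ‖∑ n ∈ Icc 1 (h - 1), (mu (x + n) : ℂ) * f (T^[n] (y x))‖ := by
    intro x
    obtain ⟨h', rfl⟩ : ∃ h', h = h' + 1 := ⟨h - 1, by omega⟩
    rw [sum_range_succ', Nat.add_sub_cancel, add_comm]
    refine (norm_add_le _ _).trans (add_le_add ?_ (le_of_eq ?_))
    · rw [norm_mul]
      exact (mul_le_of_le_one_left (norm_nonneg _) (LOM.mc_le _)).trans (hfC _)
    · congr 1
      have e1 : Icc 1 h' = Ico 1 (h' + 1) := by
        ext x
        rw [mem_Icc, mem_Ico]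
        omega
      rw [e1, sum_Ico_eq_sum_range, Nat.add_sub_cancel]
      refine sum_congr rfl fun i _ => ?_
      rw [add_comm 1 i]
      congr 1
  have h4 : ∀ x : ℕ, ‖∑ n ∈ range h, PI.mc (x + n) * f (T^[n] (y x))‖ ≤ h * C := by
    intro x
    refine (norm_sum_le _ _).trans ?_
    have h5 : ∀ n ∈ range h, ‖PI.mc (x + n) * f (T^[n] (y x))‖ ≤ C := by
      intro n _
      rw [norm_mul]
      exact (mul_le_of_le_one_left (norm_nonneg _) (LOM.mc_le _)).trans (hfC _)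
    refine (sum_le_sum h5).trans (le_of_eq ?_)
    rw [sum_const, card_range, nsmul_eq_mul]
  have h5 : ∑ x ∈ range N, ‖∑ n ∈ range h, PI.mc (x + n) * f (T^[n] (y x))‖ ≤
      h * C + ∑ x ∈ Icc 1 N, (C + ‖∑ n ∈ Icc 1 (h - 1), (mu (x + n) : ℂ) * f (T^[n] (y x))‖) := by
    have e1 : range N ⊆ insert 0 (Icc 1 N) := by
      intro x hx
      rw [mem_range] at hx
      rw [mem_insert, mem_Icc]
      omega
    refine (sum_le_sum_of_subset_of_nonneg e1 fun _ _ _ => norm_nonneg _).trans ?_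
    rw [sum_insert (by rw [mem_Icc]; omega)]
    exact add_le_add (h4 0) (sum_le_sum fun x _ => h3 x)
  refine h5.trans ?_
  rw [sum_add_distrib, sum_const, Nat.card_Icc, Nat.add_sub_cancel, nsmul_eq_mul]
  have hN0 : (0 : ℝ) ≤ N := Nat.cast_nonneg _
  have hh0 : (0 : ℝ) ≤ h := Nat.cast_nonneg _
  have h6 : ε / 4 * ((h - 1 : ℕ) : ℝ) * N ≤ ε / 4 * h * N := by
    refine mul_le_mul_of_nonneg_right (mul_le_mul_of_nonneg_left ?_ (by linarith)) hN0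
    exact_mod_cast Nat.sub_le h 1
  have h7 : (h : ℝ) * C ≤ ε / 4 * h * N := by
    have := mul_le_mul_of_nonneg_left hN3 hh0
    linarith
  have h8 : (N : ℝ) * C ≤ ε / 4 * h * N := by
    have := mul_le_mul_of_nonneg_left hh3 hN0
    linarith
  have h9 := h2.trans h6
  have h10 : 0 ≤ ε * h * N := mul_nonneg (mul_nonneg hε.le hh0) hN0
  refine (add_le_add h7 (add_le_add h8 h9)).trans ?_
  linarith

end Pool.Agent.Lib.MP_3e612f_nt.NF
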