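import Pool.Agent.Lib.MP_3e612f_nt.NF.X.Ab1
import Pool.Agent.Lib.MP_3e612f_nt.NF.X.Good
import Pool.Agent.Lib.MP_3e612f_nt.NF.X.Lus

/-! Families of rotations of tori over periodic bases, null sets of frequencies (rational numbers allowed). -/

set_option autoImplicit false

namespace Pool.Agent.Lib.MP_3e612f_nt.NF

open Finset
open Pool.Agent.Lib.MP_3e612f_nt.MR (mu ex)

section
variable {G : Type} [Group G] [TopologicalSpace G] [IsTopologicalGroup G] {Γ : Subgroup G} {k : ℕ}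

/-- the quotient is compact -/
theorem quot_cpt (M : Mal G Γ k) (hk : LL G k = ⊥) : CompactSpace (G ⧸ Γ) := by
  obtain ⟨D, hD, hx⟩ := dec M
  have h1 : (Set.univ : Set (G ⧸ Γ)) = (fun x : G => (x : G ⧸ Γ)) '' D := by
    ext z
    simp only [Set.mem_univ, Set.mem_image, true_iff]
    obtain ⟨x, rfl⟩ := QuotientGroup.mk_surjective z
    obtain ⟨r, hr, h, hh, γ, hγ, hxe, -⟩ := hx x
    rw [hk, Subgroup.mem_bot] at hh
    refine ⟨r, hr, ?_⟩
    rw [hxe, hh, mul_one]
    exact (QuotientGroup.mk_mul_of_mem r hγ).symm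
  exact ⟨by
    rw [h1]
    exact hD.image QuotientGroup.continuous_mk⟩

/-- `x ↦ e(m · p₀ x)` is right `Γ`-invariant -/
theorem ex_dot_right (M : Mal G Γ k) (hk1 : 1 ≤ k) (m : M.I 0 → ℤ) (x γ : G) (hγ : γ ∈ Γ) :
    ex (dot m (M.p 0 (x * γ))) = ex (dot m (M.p 0 x)) := by
  rw [M.p0_mul hk1, dot_add]
  have h1 : ∃ z : ℤ, dot m (M.p 0 γ) = z := by
    have h2 : ∀ i, ∃ z : ℤ, M.p 0 γ i = z := fun i => M.p_int 0 hk1 γ hγ (LL_zero γ) i
    choose z hz using h2
    refine ⟨∑ i, m i * z i, ?_⟩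
    unfold dot
    push_cast
    exact sum_congr rfl fun i _ => by rw [hz i]
  obtain ⟨z, hz⟩ := h1
  rw [hz, ex_add_int]

/-- the character `x Γ ↦ e(m · p₀ x)` of `G/Γ` -/
noncomputable def chq (M : Mal G Γ k) (hk1 : 1 ≤ k) (m : M.I 0 → ℤ) : G ⧸ Γ → ℂ :=
  Quotient.lift (fun x : G => ex (dot m (M.p 0 x))) (by
    intro x y hxy
    have h1 : x⁻¹ * y ∈ Γ := QuotientGroup.leftRel_apply.1 hxy
    have h2 : y = x * (x⁻¹ * y) := by group
    change ex (dot m (M.p 0 x)) = ex (dot m (M.p 0 y))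
    rw [h2]
    exact (ex_dot_right M hk1 m x _ h1).symm)

theorem chq_mk (M : Mal G Γ k) (hk1 : 1 ≤ k) (m : M.I 0 → ℤ) (x : G) : chq M hk1 m (x : G ⧸ Γ) = ex (dot m (M.p 0 x)) := rfl

theorem chq_cont (M : Mal G Γ k) (hk1 : 1 ≤ k) (m : M.I 0 → ℤ) : Continuous (chq M hk1 m) := by
  have hp : Continuous (M.p 0) := by
    rw [← continuousOn_univ]
    exact (M.p_cont 0 hk1).mono fun x _ => LL_zero x
  have hd : Continuous (fun x : G => dot m (M.p 0 x)) := by
    unfold dot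
    refine continuous_finsetSum _ fun i _ => continuous_const.mul ?_
    exact (continuous_apply i).comp hp
  have he : Continuous ex := by
    unfold ex
    fun_prop
  exact (he.comp hd).quotient_lift _

/-- `e(t) = 1` only for integers -/
theorem ex_eq_one {t : ℝ} (h : ex t = 1) : ∃ z : ℤ, t = z := by
  unfold ex at h
  rw [Complex.exp_eq_one_iff] at h
  obtain ⟨z, hz⟩ := h
  refine ⟨z, ?_⟩
  have h5 : (2 * Real.pi * Complex.I : ℂ) ≠ 0 := by
    have := Real.pi_ne_zero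
    simp [this]
  have h4 : (t : ℂ) = (z : ℂ) := by
    refine mul_right_cancel₀ h5 ?_
    rw [← hz]
    push_cast
    ring
  exact_mod_cast h4

/-- the characters separate the points of `G/Γ` if `LL G 1 = 1` -/
theorem chq_sep (M : Mal G Γ 1) (hk : LL G 1 = ⊥) (z z' : G ⧸ Γ) (h : z ≠ z') : ∃ m : M.I 0 → ℤ, chq M le_rfl m z ≠ chq M le_rfl m z' := by
  classical
  by_contra hcon
  push Not at hcon
  obtain ⟨x, rfl⟩ := QuotientGroup.mk_surjective z
  obtain ⟨y, rfl⟩ := QuotientGroup.mk_surjective z'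
  apply h
  have h1 : ∀ i : M.I 0, ∃ n : ℤ, M.p 0 y i - M.p 0 x i = n := by
    intro i
    have h2 := hcon (Pi.single i 1)
    change ex (dot (Pi.single i 1) (M.p 0 x)) = ex (dot (Pi.single i 1) (M.p 0 y)) at h2
    have h3 : ∀ v : M.I 0 → ℝ, dot (Pi.single i 1) v = v i := by
      intro v
      unfold dot
      rw [sum_eq_single i]
      · simp
      · intro j _ hj
        rw [Pi.single_eq_of_ne hj]
        simp
      · intro hi
        exact absurd (mem_univ i) hi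
    rw [h3, h3] at h2
    apply ex_eq_one
    rw [ex_sub, ← h2, Complex.mul_conj, Complex.normSq_eq_norm_sq, norm_ex]
    simp
  choose n hn using h1
  obtain ⟨γ, hγ, -, hγ2⟩ := M.int_p 0 (by norm_num) n
  have h4 : x⁻¹ * y * γ⁻¹ ∈ LL G (0 + 1) := by
    rw [← M.p_ker 0 (by norm_num) _ (LL_zero _)]
    have h5 : M.p 0 (x * (x⁻¹ * y * γ⁻¹) * γ) = M.p 0 x + M.p 0 (x⁻¹ * y * γ⁻¹) + M.p 0 γ := by
      rw [M.p0_mul (by norm_num), M.p0_mul (by norm_num)]
    have h6 : x * (x⁻¹ * y * γ⁻¹) * γ = y := by group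
    rw [h6] at h5
    funext i
    have h7 := congrFun h5 i
    rw [Pi.add_apply, Pi.add_apply, hγ2, ← hn i] at h7
    rw [Pi.zero_apply]
    linarith
  rw [zero_add, hk, Subgroup.mem_bot] at h4
  have h5 : x⁻¹ * y = γ := by
    have := mul_inv_eq_one.1 h4
    exact this
  rw [QuotientGroup.eq, h5]
  exact hγ

end

end Pool.Agent.Lib.MP_3e612f_nt.NF
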