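import Pool.Agent.Lib.MP_3e612f_nt.NF.X.AbLus

/-! Families of rotations of tori over periodic bases, null sets of frequencies: all continuous functions. -/

set_option autoImplicit false

namespace Pool.Agent.Lib.MP_3e612f_nt.NF

open Finset
open Pool.Agent.Lib.MP_3e612f_nt.MR (mu ex)

/-- one product function -/
theorem good_prod {G : Type} [Group G] [TopologicalSpace G] [IsTopologicalGroup G] {Γ : Subgroup G} {k : ℕ} (M : Mal G Γ k) (hk1 : 1 ≤ k)
    {W : Type} [MetricSpace W] [CompactSpace W] (τ : W → W) (hτ : Continuous τ) (Q : ℕ) (hQ : 1 ≤ Q) (hper : ∀ w, τ^[Q] w = w) (u : W → G) (hu : Continuous u)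
    (m : M.I 0 → ℤ) (hnull : m ≠ 0 → MeasureTheory.volume {x : ℝ | ∃ w, x = ∑ i ∈ range Q, dot m (M.p 0 (u (τ^[i] w)))} = 0)
    (g : W → ℂ) (C : ℝ) (hC : ∀ w, ‖g w‖ ≤ C) (f : W × (G ⧸ Γ) → ℂ) (hf : ∀ w x, f (w, x) = g w * chq M hk1 m x) : GoodF (nilmap (Γ := Γ) τ u) f := by
  -- the closed null set
  obtain ⟨K, hK, hKp, hK0, hKm⟩ : ∃ K : Set ℝ, IsClosed K ∧ (∀ x ∈ K, ∀ z : ℤ, x + z ∈ K) ∧ MeasureTheory.volume K = 0 ∧ ∀ w, dot m (M.p 0 (coc τ u Q w)) ∈ K := by
    have hp : Continuous (M.p 0) := by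
      rw [← continuousOn_univ]
      exact (M.p_cont 0 hk1).mono fun x _ => LL_zero x
    have hd : Continuous (fun w : W => dot m (M.p 0 (coc τ u Q w))) := by
      unfold dot
      refine continuous_finsetSum _ fun i _ => continuous_const.mul ?_
      exact (continuous_apply i).comp (hp.comp (coc_cont hτ hu Q))
    have hc : IsCompact (Set.range fun w : W => dot m (M.p 0 (coc τ u Q w))) := isCompact_range hd
    have hv : MeasureTheory.volume (Set.range fun w : W => dot m (M.p 0 (coc τ u Q w))) = 0 := by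
      by_cases hm : m = 0
      · have h1 : (Set.range fun w : W => dot m (M.p 0 (coc τ u Q w))) ⊆ {0} := by
          rintro x ⟨w, rfl⟩
          simp only [Set.mem_singleton_iff]
          rw [hm, dot_zero_left]
        exact MeasureTheory.measure_mono_null h1 (by simp)
      · have h1 : (Set.range fun w : W => dot m (M.p 0 (coc τ u Q w))) = {x : ℝ | ∃ w, x = ∑ i ∈ range Q, dot m (M.p 0 (u (τ^[i] w)))} := by
          ext x
          constructor
          · rintro ⟨w, rfl⟩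
            exact ⟨w, dot_coc M hk1 τ u m Q w⟩
          · rintro ⟨w, rfl⟩
            exact ⟨w, dot_coc M hk1 τ u m Q w⟩
        rw [h1]
        exact hnull hm
    refine ⟨Fr (Set.range fun w : W => dot m (M.p 0 (coc τ u Q w))), isClosed_closure, ?_, ?_, ?_⟩
    · rw [fr_of_cpt hc]
      rintro x ⟨y, hy, z, rfl⟩ z'
      exact ⟨y, hy, z + z', by push_cast; ring⟩
    · rw [fr_of_cpt hc]
      have h5 : {x : ℝ | ∃ y ∈ (Set.range fun w : W => dot m (M.p 0 (coc τ u Q w))), ∃ z : ℤ, x = y + z}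
          ⊆ ⋃ z : ℤ, (fun x => x + (-(z : ℝ))) ⁻¹' (Set.range fun w : W => dot m (M.p 0 (coc τ u Q w))) := by
        rintro x ⟨y, hy, z, rfl⟩
        rw [Set.mem_iUnion]
        refine ⟨z, ?_⟩
        rw [Set.mem_preimage]
        simpa using hy
      refine MeasureTheory.measure_mono_null h5 (MeasureTheory.measure_iUnion_null fun z => ?_)
      rw [MeasureTheory.measure_preimage_add_right]
      exact hv
    · intro w
      rw [fr_of_cpt hc]
      exact ⟨_, ⟨w, rfl⟩, 0, by simp⟩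
  have hC0 : ∀ w : W, 0 ≤ C := fun w => (norm_nonneg _).trans (hC w)
  intro ε hε
  obtain ⟨H₀, h1⟩ := null_ap K hK hKp hK0 Q hQ (ε / (Q * (|C| + 1))) (by positivity)
  refine ⟨H₀, fun H hH => ?_⟩
  obtain ⟨N₀, h1⟩ := h1 H hH
  refine ⟨N₀, fun N hN y => ?_⟩
  have hlift : ∃ a : ℕ → G, ∀ n, (y n).2 = (a n : G ⧸ Γ) := by
    choose a ha using fun n => QuotientGroup.mk_surjective (y n).2
    exact ⟨a, fun n => (ha n).symm⟩
  obtain ⟨a, ha⟩ := hlift
  have hy : ∀ n, y n = ((y n).1, (a n : G ⧸ Γ)) := fun n => Prod.ext rfl (ha n)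
  -- one orbit
  have h2 : ∀ n h : ℕ, f ((nilmap (Γ := Γ) τ u)^[h] (y n)) = ∑ r ∈ range Q, (g (τ^[r] (y n).1) * ex (dot m (M.p 0 (coc τ u r (y n).1))) * ex (dot m (M.p 0 (a n)))) *
      (if h % Q = r then ex (dot m (M.p 0 (coc τ u Q (y n).1)) * ((h / Q : ℕ) : ℝ)) else 0) := by
    intro n h
    have e1 : (nilmap (Γ := Γ) τ u)^[h] (y n) = (τ^[h] (y n).1, ((coc τ u h (y n).1 * a n : G) : G ⧸ Γ)) := by
      conv_lhs => rw [hy n]
      rw [nilmap_iter, skew_iter]
    have e0 := Nat.div_add_mod h Q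
    have e2 : τ^[h] (y n).1 = τ^[h % Q] (y n).1 := by
      conv_lhs => rw [← e0]
      exact iter_per τ Q hper _ _ _
    have e3 : coc τ u h (y n).1 = coc τ u (h % Q) (y n).1 * coc τ u Q (y n).1 ^ (h / Q) := by
      conv_lhs => rw [← e0]
      exact coc_per τ u Q hper _ _ _
    have e4 : dot m (M.p 0 (coc τ u h (y n).1 * a n)) = dot m (M.p 0 (coc τ u (h % Q) (y n).1)) + dot m (M.p 0 (a n)) +
        dot m (M.p 0 (coc τ u Q (y n).1)) * ((h / Q : ℕ) : ℝ) := by
      rw [M.p0_mul hk1, dot_add, e3, M.p0_mul hk1, dot_add, M.p0_pow hk1, dot_smul]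
      ring
    rw [e1, hf, chq_mk, e4, ex_add, ex_add, e2]
    have e5 : ∀ r ∈ range Q, (g (τ^[r] (y n).1) * ex (dot m (M.p 0 (coc τ u r (y n).1))) * ex (dot m (M.p 0 (a n)))) *
        (if h % Q = r then ex (dot m (M.p 0 (coc τ u Q (y n).1)) * ((h / Q : ℕ) : ℝ)) else 0) =
        if h % Q = r then g (τ^[r] (y n).1) * ex (dot m (M.p 0 (coc τ u r (y n).1))) * ex (dot m (M.p 0 (a n))) *
          ex (dot m (M.p 0 (coc τ u Q (y n).1)) * ((h / Q : ℕ) : ℝ)) else 0 := by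
      intro r _
      rw [mul_ite, mul_zero]
    rw [sum_congr rfl e5, sum_ite_eq (range Q) (h % Q) (fun r => g (τ^[r] (y n).1) * ex (dot m (M.p 0 (coc τ u r (y n).1))) * ex (dot m (M.p 0 (a n))) *
          ex (dot m (M.p 0 (coc τ u Q (y n).1)) * ((h / Q : ℕ) : ℝ))), if_pos (mem_range.2 (Nat.mod_lt _ (by omega)))]
    ring
  have h3 : ∀ n ∈ Icc 1 N, ‖∑ h ∈ Icc 1 H, (mu (n + h) : ℂ) * f ((nilmap (Γ := Γ) τ u)^[h] (y n))‖ ≤
      ∑ r ∈ range Q, (|C| + 1) * ‖∑ h ∈ Icc 1 H, (mu (n + h) : ℂ) * (if h % Q = r then ex (dot m (M.p 0 (coc τ u Q (y n).1)) * ((h / Q : ℕ) : ℝ)) else 0)‖ := by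
    intro n _
    have e1 : ∑ h ∈ Icc 1 H, (mu (n + h) : ℂ) * f ((nilmap (Γ := Γ) τ u)^[h] (y n)) =
        ∑ r ∈ range Q, (g (τ^[r] (y n).1) * ex (dot m (M.p 0 (coc τ u r (y n).1))) * ex (dot m (M.p 0 (a n)))) *
          ∑ h ∈ Icc 1 H, (mu (n + h) : ℂ) * (if h % Q = r then ex (dot m (M.p 0 (coc τ u Q (y n).1)) * ((h / Q : ℕ) : ℝ)) else 0) := by
      have e2 : ∀ r ∈ range Q, (g (τ^[r] (y n).1) * ex (dot m (M.p 0 (coc τ u r (y n).1))) * ex (dot m (M.p 0 (a n)))) *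
          ∑ h ∈ Icc 1 H, (mu (n + h) : ℂ) * (if h % Q = r then ex (dot m (M.p 0 (coc τ u Q (y n).1)) * ((h / Q : ℕ) : ℝ)) else 0) =
          ∑ h ∈ Icc 1 H, (mu (n + h) : ℂ) * ((g (τ^[r] (y n).1) * ex (dot m (M.p 0 (coc τ u r (y n).1))) * ex (dot m (M.p 0 (a n)))) *
            (if h % Q = r then ex (dot m (M.p 0 (coc τ u Q (y n).1)) * ((h / Q : ℕ) : ℝ)) else 0)) := by
        intro r _
        rw [mul_sum]
        exact sum_congr rfl fun h _ => by ring
      rw [sum_congr rfl e2, sum_comm]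
      refine sum_congr rfl fun h _ => ?_
      rw [← mul_sum, ← h2 n h]
    rw [e1]
    refine (norm_sum_le _ _).trans (sum_le_sum fun r _ => ?_)
    rw [norm_mul, norm_mul, norm_mul, norm_ex, norm_ex, mul_one, mul_one]
    refine mul_le_mul_of_nonneg_right ?_ (norm_nonneg _)
    exact (hC _).trans ((le_abs_self C).trans (by linarith))
  refine (sum_le_sum h3).trans ?_
  rw [sum_comm]
  have h4 : ∀ r ∈ range Q, ∑ n ∈ Icc 1 N, (|C| + 1) * ‖∑ h ∈ Icc 1 H, (mu (n + h) : ℂ) * (if h % Q = r then ex (dot m (M.p 0 (coc τ u Q (y n).1)) * ((h / Q : ℕ) : ℝ)) else 0)‖ ≤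
      (|C| + 1) * (ε / (Q * (|C| + 1)) * H * N) := by
    intro r _
    rw [← mul_sum]
    exact mul_le_mul_of_nonneg_left (h1 N hN (fun n => dot m (M.p 0 (coc τ u Q (y n).1))) (fun _ => r) (fun n => hKm _)) (by positivity)
  refine (sum_le_sum h4).trans (le_of_eq ?_)
  rw [sum_const, card_range, nsmul_eq_mul]
  have hQ0 : (Q : ℝ) ≠ 0 := by exact_mod_cast (by omega : Q ≠ 0)
  have hC1 : |C| + 1 ≠ 0 := by positivity
  field_simp

section
variable {G : Type} [Group G] [TopologicalSpace G] [IsTopologicalGroup G] {Γ : Subgroup G}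

/-- the products of a continuous function and a character -/
def prodN (W : Type) [TopologicalSpace W] (M : Mal G Γ 1) : Submonoid C(W × (G ⧸ Γ), ℂ) where
  carrier := {F | ∃ (g : C(W, ℂ)) (m : M.I 0 → ℤ), ∀ w x, F (w, x) = g w * chq M le_rfl m x}
  one_mem' := ⟨1, 0, fun w x => by
    obtain ⟨x, rfl⟩ := QuotientGroup.mk_surjective x
    rw [chq_mk, dot_zero_left, ex_zero]
    simp⟩
  mul_mem' := by
    rintro F F' ⟨g, m, h⟩ ⟨g', m', h'⟩
    refine ⟨g * g', m + m', fun w x => ?_⟩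
    obtain ⟨x, rfl⟩ := QuotientGroup.mk_surjective x
    rw [ContinuousMap.mul_apply, ContinuousMap.mul_apply, h, h', chq_mk, chq_mk, chq_mk]
    have e1 : dot (m + m') (M.p 0 x) = dot m (M.p 0 x) + dot m' (M.p 0 x) := by
      unfold dot
      rw [← sum_add_distrib]
      refine sum_congr rfl fun i _ => ?_
      rw [Pi.add_apply]
      push_cast
      ring
    rw [e1, ex_add]
    ring

theorem prodN_star {W : Type} [TopologicalSpace W] {M : Mal G Γ 1} {F : C(W × (G ⧸ Γ), ℂ)} (hF : F ∈ prodN W M) : star F ∈ prodN W M := by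
  obtain ⟨g, m, h⟩ := hF
  refine ⟨star g, -m, fun w x => ?_⟩
  obtain ⟨x, rfl⟩ := QuotientGroup.mk_surjective x
  rw [ContinuousMap.star_apply, ContinuousMap.star_apply, h, star_mul', chq_mk, chq_mk]
  have e1 : dot (-m) (M.p 0 x) = -dot m (M.p 0 x) := by
    unfold dot
    rw [← sum_neg_distrib]
    refine sum_congr rfl fun i _ => ?_
    rw [Pi.neg_apply]
    push_cast
    ring
  rw [e1, ex_neg]
  rfl

/-- the star algebra of the sums of products -/
noncomputable def prodNA (W : Type) [TopologicalSpace W] (M : Mal G Γ 1) : StarSubalgebra ℂ C(W × (G ⧸ Γ), ℂ) where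
  toSubalgebra := Algebra.adjoin ℂ (prodN W M : Set C(W × (G ⧸ Γ), ℂ))
  star_mem' := by
    intro F hF
    refine Algebra.adjoin_induction (p := fun F _ => star F ∈
      (Algebra.adjoin ℂ (prodN W M : Set C(W × (G ⧸ Γ), ℂ)) : Subalgebra ℂ C(W × (G ⧸ Γ), ℂ)))
      (fun G hG => Algebra.subset_adjoin (prodN_star hG)) (fun r => ?_) (fun G G' _ _ h h' => ?_)
      (fun G G' _ _ h h' => ?_) hF
    · rw [← algebraMap_star_comm]
      exact Subalgebra.algebraMap_mem _ _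
    · rw [star_add]
      exact add_mem h h'
    · rw [star_mul]
      exact mul_mem h' h

theorem prodN_dense {W : Type} [MetricSpace W] [CompactSpace W] (M : Mal G Γ 1) (hk : LL G 1 = ⊥) (f : C(W × (G ⧸ Γ), ℂ)) {ε : ℝ} (hε : 0 < ε) :
    ∃ F ∈ Submodule.span ℂ (prodN W M : Set C(W × (G ⧸ Γ), ℂ)), ∀ p, ‖f p - F p‖ ≤ ε := by
  have : CompactSpace (G ⧸ Γ) := quot_cpt M hk
  have hsep : (prodNA W M).SeparatesPoints := by
    rintro ⟨x, z⟩ ⟨x', z'⟩ hne
    by_cases hx : x = x'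
    · have hz : z ≠ z' := fun h => hne (by rw [hx, h])
      obtain ⟨m, hm⟩ := chq_sep M hk z z' hz
      refine ⟨_, ⟨⟨fun p => chq M le_rfl m p.2, (chq_cont M le_rfl m).comp continuous_snd⟩,
        Algebra.subset_adjoin ⟨1, m, fun x z => ?_⟩, rfl⟩, hm⟩
      simp
    · obtain ⟨g, hg1, hg2⟩ : ∃ g : C(W, ℂ), g x ≠ g x' ∧ True := by
        obtain ⟨g, h1, h2, -⟩ := exists_continuous_zero_one_of_isClosed (isClosed_singleton (x := x))
          (isClosed_singleton (x := x')) (Set.disjoint_singleton.2 hx)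
        refine ⟨⟨fun y => ((g y : ℝ) : ℂ), Complex.continuous_ofReal.comp g.continuous⟩, ?_, trivial⟩
        have h3 := h1 (Set.mem_singleton x)
        have h4 := h2 (Set.mem_singleton x')
        show ((g x : ℝ) : ℂ) ≠ ((g x' : ℝ) : ℂ)
        rw [h3, h4]
        simp
      refine ⟨_, ⟨⟨fun p => g p.1, g.continuous.comp continuous_fst⟩,
        Algebra.subset_adjoin ⟨g, 0, fun x z => ?_⟩, rfl⟩, hg1⟩
      obtain ⟨z, rfl⟩ := QuotientGroup.mk_surjective z
      rw [chq_mk, dot_zero_left, ex_zero, mul_one]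
      rfl
  have htop := ContinuousMap.starSubalgebra_topologicalClosure_eq_top_of_separatesPoints
    (prodNA W M) hsep
  have hf : f ∈ (prodNA W M).topologicalClosure := by
    rw [htop]
    exact trivial
  have hf2 : f ∈ closure ((prodNA W M : StarSubalgebra ℂ C(W × (G ⧸ Γ), ℂ)) : Set C(W × (G ⧸ Γ), ℂ)) := hf
  obtain ⟨F, hF, hFd⟩ := Metric.mem_closure_iff.1 hf2 ε hε
  refine ⟨F, ?_, fun p => ?_⟩
  · have h1 : F ∈ Subalgebra.toSubmodule (Algebra.adjoin ℂ (prodN W M : Set C(W × (G ⧸ Γ), ℂ))) := hF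
    rw [Algebra.adjoin_eq_span, Submonoid.closure_eq] at h1
    exact h1
  · rw [← dist_eq_norm]
    exact (ContinuousMap.dist_apply_le_dist p).trans hFd.le

/-- Families of rotations of tori over periodic bases with null sets of frequencies. -/
theorem lus_ab (M : Mal G Γ 1) (hk : LL G 1 = ⊥)
    {W : Type} [MetricSpace W] [CompactSpace W] (τ : W → W) (hτ : Continuous τ) (Q : ℕ) (hQ : 1 ≤ Q) (hper : ∀ w, τ^[Q] w = w) (u : W → G) (hu : Continuous u)
    (hnull : ∀ m : M.I 0 → ℤ, m ≠ 0 → MeasureTheory.volume {x : ℝ | ∃ w, x = ∑ i ∈ range Q, dot m (M.p 0 (u (τ^[i] w)))} = 0) :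
    LOM.LUS (nilmap (Γ := Γ) τ u) Set.univ := by
  have : CompactSpace (G ⧸ Γ) := quot_cpt M hk
  refine lus_of_good fun f hf => good_lim fun δ hδ => ?_
  obtain ⟨F, hF, hFd⟩ := prodN_dense M hk ⟨f, hf⟩ hδ
  refine ⟨F, ?_, hFd⟩
  clear hFd
  induction hF using Submodule.span_induction with
  | mem F hF =>
    obtain ⟨g, m, h⟩ := hF
    exact good_prod M le_rfl τ hτ Q hQ hper u hu m (hnull m) g ‖g‖ (fun w => g.norm_coe_le_norm w) F h
  | zero => exact good_zero _
  | add F F' _ _ hF hF' => exact good_add hF hF'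
  | smul a F _ hF => exact good_smul a hF

end

end Pool.Agent.Lib.MP_3e612f_nt.NF
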