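import Pool.Agent.Lib.MP_3e612f_nt.LO.R.Pol

/-!
Affine unipotent maps of compact abelian groups: characters along orbits, approximation by products (copied from `LO/R/Aff.lean`).
-/

set_option autoImplicit false

namespace Pool.Agent.Lib.MP_3e612f_nt.NF

open Finset
open Pool.Agent.Lib.MP_3e612f_nt.LORT (PhD phd_up phd_add tc tc_add tc_norm tc_zero tc_conj tc_cont)

section
variable {K : Type} [AddCommGroup K] [TopologicalSpace K]

/-- the character `χ ∘ A - χ` -/
def dch (A : K →+ K) (χ : K →+ UnitAddCircle) : K →+ UnitAddCircle := χ.comp A - χ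

theorem dch_apply (A : K →+ K) (χ : K →+ UnitAddCircle) (z : K) :
    dch A χ z = χ (A z) - χ z := rfl

theorem dch_cont {A : K →+ K} (hA : Continuous A) {χ : K →+ UnitAddCircle} (hχ : Continuous χ) :
    Continuous (dch A χ) := (hχ.comp hA).sub hχ

theorem dch_iter (A : K →+ K) (χ : K →+ UnitAddCircle) (D : ℕ) (z : K) :
    (dch A)^[D] χ z = χ ((fun w => A w - w)^[D] z) := by
  induction D generalizing χ with
  | zero => rfl
  | succ D ih =>
    rw [Function.iterate_succ_apply, ih, Function.iterate_succ_apply', dch_apply, map_sub]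

/-- along an orbit a character is a polynomial phase -/
theorem dch_phd (A : K →+ K) (a : K) (D : ℕ) {χ : K →+ UnitAddCircle}
    (hD : (dch A)^[D + 1] χ = 0) (z : K) :
    PhD (D + 1) ((dch A)^[D] χ a) fun n => χ ((fun w => A w + a)^[n] z) := by
  induction D generalizing χ with
  | zero =>
    intro n
    show χ ((fun w => A w + a)^[n + 1] z) - χ ((fun w => A w + a)^[n] z) = χ a
    rw [Function.iterate_succ_apply']
    have h1 : dch A χ ((fun w => A w + a)^[n] z) = 0 := by
      have h2 : dch A χ = 0 := hD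
      rw [h2]
      rfl
    rw [dch_apply] at h1
    rw [map_add, add_sub_right_comm, h1, zero_add]
  | succ D ih =>
    have h1 := ih (χ := dch A χ) hD
    have h2 : PhD (D + 1) 0 fun _ : ℕ => χ a := by
      clear h1 ih hD
      induction D with
      | zero => exact phd_up (D := 0) fun _ => rfl
      | succ D ih => exact phd_up ih
    have h3 := phd_add h1 h2
    rw [add_zero] at h3
    show PhD (D + 1) _ fun n => χ ((fun w => A w + a)^[n + 1] z) - χ ((fun w => A w + a)^[n] z)
    rw [Function.iterate_succ_apply]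
    convert h3 using 2 with n
    rw [Function.iterate_succ_apply', dch_apply, map_add]
    abel

end

section
variable {E K : Type} [TopologicalSpace E] [AddCommGroup K] [TopologicalSpace K]

/-- the products of a continuous function and a character -/
def chB (E K : Type) [TopologicalSpace E] [AddCommGroup K] [TopologicalSpace K] :
    Submonoid C(E × K, ℂ) where
  carrier := {F | ∃ (g : C(E, ℂ)) (χ : K →+ UnitAddCircle), Continuous χ ∧
    ∀ x z, F (x, z) = g x * tc (χ z)}
  one_mem' := ⟨1, 0, continuous_const, fun _ z => by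
    rw [AddMonoidHom.zero_apply, tc_zero]
    simp⟩
  mul_mem' := by
    rintro F F' ⟨g, χ, h1, h3⟩ ⟨g', χ', h1', h3'⟩
    refine ⟨g * g', χ + χ', h1.add h1', fun x z => ?_⟩
    rw [ContinuousMap.mul_apply, ContinuousMap.mul_apply, AddMonoidHom.add_apply, h3, h3', tc_add]
    ring

theorem chB_star {F : C(E × K, ℂ)} (hF : F ∈ chB E K) : star F ∈ chB E K := by
  obtain ⟨g, χ, h1, h3⟩ := hF
  refine ⟨star g, -χ, h1.neg, fun x z => ?_⟩
  rw [ContinuousMap.star_apply, ContinuousMap.star_apply, h3, star_mul', AddMonoidHom.neg_apply,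
    ← tc_conj]
  rfl

/-- the star algebra of the sums of products -/
noncomputable def chA (E K : Type) [TopologicalSpace E] [AddCommGroup K] [TopologicalSpace K] :
    StarSubalgebra ℂ C(E × K, ℂ) where
  toSubalgebra := Algebra.adjoin ℂ (chB E K : Set C(E × K, ℂ))
  star_mem' := by
    intro F hF
    refine Algebra.adjoin_induction (p := fun F _ => star F ∈
      (Algebra.adjoin ℂ (chB E K : Set C(E × K, ℂ)) : Subalgebra ℂ C(E × K, ℂ)))
      (fun G hG => Algebra.subset_adjoin (chB_star hG)) (fun r => ?_) (fun G G' _ _ h h' => ?_)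
      (fun G G' _ _ h h' => ?_) hF
    · rw [← algebraMap_star_comm]
      exact Subalgebra.algebraMap_mem _ _
    · rw [star_add]
      exact add_mem h h'
    · rw [star_mul]
      exact mul_mem h' h

/-- the characters separate the points -/
def CSep (K : Type) [AddCommGroup K] [TopologicalSpace K] : Prop :=
  ∀ z : K, z ≠ 0 → ∃ χ : K →+ UnitAddCircle, Continuous χ ∧ χ z ≠ 0

theorem tc_inj {x y : UnitAddCircle} (h : tc x = tc y) : x = y :=
  AddCircle.injective_toCircle one_ne_zero (Circle.ext h)

theorem chA_dense [CompactSpace E] [CompactSpace K] [T2Space E] (hK : CSep K)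
    (f : C(E × K, ℂ)) {ε : ℝ} (hε : 0 < ε) :
    ∃ F ∈ Submodule.span ℂ (chB E K : Set C(E × K, ℂ)), ∀ p, ‖f p - F p‖ ≤ ε := by
  have hsep : (chA E K).SeparatesPoints := by
    rintro ⟨x, z⟩ ⟨x', z'⟩ hne
    by_cases hx : x = x'
    · have hz : z - z' ≠ 0 := fun h => hne (by rw [hx, sub_eq_zero.1 h])
      obtain ⟨χ, h1, h3⟩ := hK _ hz
      refine ⟨_, ⟨⟨fun p => tc (χ p.2), tc_cont.comp (h1.comp continuous_snd)⟩,
        Algebra.subset_adjoin ⟨1, χ, h1, fun x z => ?_⟩, rfl⟩, ?_⟩
      · simp
      · intro h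
        apply h3
        rw [map_sub, sub_eq_zero]
        exact tc_inj h
    · obtain ⟨g, hg1, hg2⟩ : ∃ g : C(E, ℂ), g x ≠ g x' ∧ True := by
        obtain ⟨g, h1, h2, -⟩ := exists_continuous_zero_one_of_isClosed (isClosed_singleton (x := x))
          (isClosed_singleton (x := x')) (Set.disjoint_singleton.2 hx)
        refine ⟨⟨fun y => ((g y : ℝ) : ℂ), Complex.continuous_ofReal.comp g.continuous⟩, ?_, trivial⟩
        have h3 := h1 (Set.mem_singleton x)
        have h4 := h2 (Set.mem_singleton x')
        show ((g x : ℝ) : ℂ) ≠ ((g x' : ℝ) : ℂ)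
        rw [h3, h4]
        simp
      refine ⟨_, ⟨⟨fun p => g p.1, g.continuous.comp continuous_fst⟩,
        Algebra.subset_adjoin ⟨g, 0, continuous_const, fun x z => ?_⟩, rfl⟩, hg1⟩
      rw [AddMonoidHom.zero_apply, tc_zero]
      simp
  have htop := ContinuousMap.starSubalgebra_topologicalClosure_eq_top_of_separatesPoints
    (chA E K) hsep
  have hf : f ∈ (chA E K).topologicalClosure := by
    rw [htop]
    exact trivial
  have hf2 : f ∈ closure ((chA E K : StarSubalgebra ℂ C(E × K, ℂ)) : Set C(E × K, ℂ)) := hf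
  obtain ⟨F, hF, hFd⟩ := Metric.mem_closure_iff.1 hf2 ε hε
  refine ⟨F, ?_, fun p => ?_⟩
  · have h1 : F ∈ Subalgebra.toSubmodule (Algebra.adjoin ℂ (chB E K : Set C(E × K, ℂ))) := hF
    rw [Algebra.adjoin_eq_span, Submonoid.closure_eq] at h1
    exact h1
  · rw [← dist_eq_norm]
    exact (ContinuousMap.dist_apply_le_dist p).trans hFd.le

end

end Pool.Agent.Lib.MP_3e612f_nt.NF
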