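import Pool.Agent.Lib.MP_3e612f_nt.NF.X.PhdPol
import Pool.Agent.Lib.MP_3e612f_nt.NF.X.Aff0
import Pool.Agent.Lib.MP_3e612f_nt.NF.X.Good
import Pool.Agent.Lib.MP_3e612f_nt.NF.P.PartPO
import Pool.Agent.Lib.MP_3e612f_nt.NF.P.NullSl

/-! Null families of unipotent affine maps of compact abelian groups. -/

set_option autoImplicit false

namespace Pool.Agent.Lib.MP_3e612f_nt.NF

open Finset MeasureTheory
open Pool.Agent.Lib.MP_3e612f_nt.MR (mu ex)
open Pool.Agent.Lib.MP_3e612f_nt.LORT (PhD tc tc_norm tc_coe)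

/-- polynomial phases whose leading coefficient is in a closed null set (without rational numbers if the degree is at least two) -/
theorem null_top (D : ℕ) (C : Set ℝ) (hC : IsClosed C) (hper : ∀ x ∈ C, ∀ z : ℤ, x + z ∈ C) (h0 : volume C = 0) (hq : 1 ≤ D → ∀ q : ℚ, (q : ℝ) ∉ C) (ε : ℝ) (hε : 0 < ε) :
    ∃ H₀ : ℕ, ∀ H : ℕ, H₀ ≤ H → ∃ N₀ : ℕ, ∀ N : ℕ, N₀ ≤ N → ∀ α : ℕ → Fin (D + 1) → ℝ, (∀ n, α n (Fin.last D) * ((D + 1).factorial : ℝ) ∈ C) →
      ∑ n ∈ Icc 1 N, ‖∑ h ∈ Icc 1 H, (mu (n + h) : ℂ) * ex (pol (α n) (h : ℝ))‖ ≤ ε * H * N := by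
  have hf0 : (((D + 1).factorial : ℕ) : ℝ) ≠ 0 := by exact_mod_cast Nat.factorial_ne_zero (D + 1)
  obtain ⟨K, hK⟩ : ∃ K : Set (Fin (D + 1) → ℝ), K = {α | α (Fin.last D) * ((D + 1).factorial : ℝ) ∈ C} := ⟨_, rfl⟩
  have hKc : IsClosed K := by
    rw [hK]
    exact hC.preimage ((continuous_apply _).mul continuous_const)
  have hKp : Per K := by
    intro x hx z
    rw [hK] at hx ⊢
    have h1 := hper _ hx (z (Fin.last D) * ((D + 1).factorial : ℤ))
    change (x (Fin.last D) + z (Fin.last D)) * ((D + 1).factorial : ℝ) ∈ C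
    have h2 : (x (Fin.last D) + z (Fin.last D)) * ((D + 1).factorial : ℝ) =
        x (Fin.last D) * ((D + 1).factorial : ℝ) + ((z (Fin.last D) * ((D + 1).factorial : ℤ) : ℤ) : ℝ) := by
      push_cast
      ring
    rw [h2]
    exact h1
  have hKn : NullP (D + 1) K := by
    refine nullP_of_slices (D + 1) K fun s hs hsD r => ?_
    rcases Nat.lt_or_ge s (D + 1) with hlt | hge
    · -- the top coordinate is rational
      have h1 : {x : Fin s → ℝ | (fun i : Fin (D + 1) => if h : (i : ℕ) < s then x ⟨i, h⟩ else (r i : ℝ)) ∈ K} = ∅ := by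
        ext x
        simp only [Set.mem_ofPred_eq, Set.mem_empty_iff_false, iff_false]
        intro hx
        rw [hK] at hx
        change (if h : ((Fin.last D : Fin (D + 1)) : ℕ) < s then x ⟨(Fin.last D : Fin (D + 1)), h⟩ else (r (Fin.last D) : ℝ)) * ((D + 1).factorial : ℝ) ∈ C at hx
        rw [dif_neg (by rw [Fin.val_last]; omega)] at hx
        refine hq (by omega) (r (Fin.last D) * ((D + 1).factorial : ℚ)) ?_
        push_cast
        exact hx
      rw [h1, measure_empty]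
    · obtain rfl : s = D + 1 := by omega
      have h1 : {x : Fin (D + 1) → ℝ | (fun i : Fin (D + 1) => if h : (i : ℕ) < D + 1 then x ⟨i, h⟩ else (r i : ℝ)) ∈ K} ⊆
          Function.eval (Fin.last D) ⁻¹' ((fun y : ℝ => y * ((D + 1).factorial : ℝ)) ⁻¹' C) := by
        intro x hx
        rw [Set.mem_ofPred_eq, hK] at hx
        change (if h : ((Fin.last D : Fin (D + 1)) : ℕ) < D + 1 then x ⟨(Fin.last D : Fin (D + 1)), h⟩ else (r (Fin.last D) : ℝ)) * ((D + 1).factorial : ℝ) ∈ C at hx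
        rw [dif_pos (Fin.is_lt _)] at hx
        exact hx
      have h2 : volume ((fun y : ℝ => y * ((D + 1).factorial : ℝ)) ⁻¹' C) = 0 := by
        rw [Real.volume_preimage_mul_right hf0, h0, mul_zero]
      exact measure_mono_null h1 ((Measure.quasiMeasurePreserving_eval (fun _ => (volume : Measure ℝ)) (Fin.last D)).preimage_null h2)
  obtain ⟨H₀, h1⟩ := part_po (D + 1) (by omega) K hKc hKp hKn ε hε
  refine ⟨H₀, fun H hH => ?_⟩
  obtain ⟨N₀, h1⟩ := h1 H hH
  refine ⟨N₀, fun N hN α hα => h1 N hN α fun n => ?_⟩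
  rw [hK]
  exact hα n

/-- the map of the family -/
def affmap {W K : Type} [AddCommGroup K] (A : K →+ K) (a : W → K) (p : W × K) : W × K := (p.1, A p.2 + a p.1)

theorem affmap_iter {W K : Type} [AddCommGroup K] (A : K →+ K) (a : W → K) (n : ℕ) (p : W × K) :
    (affmap A a)^[n] p = (p.1, (fun z => A z + a p.1)^[n] p.2) := by
  induction n generalizing p with
  | zero => rfl
  | succ n ih =>
    rw [Function.iterate_succ_apply, ih, Function.iterate_succ_apply]
    rfl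

section
variable {K W : Type} [AddCommGroup K] [TopologicalSpace K] [MetricSpace W] [CompactSpace W]

/-- the frequencies of a character form a closed periodic set -/
theorem chfr_closed {a : W → K} (ha : Continuous a) {ψ : K →+ UnitAddCircle} (hψ : Continuous ψ) :
    IsClosed {x : ℝ | ∃ w, (x : UnitAddCircle) = ψ (a w)} ∧ ∀ x ∈ {x : ℝ | ∃ w, (x : UnitAddCircle) = ψ (a w)}, ∀ z : ℤ, x + z ∈ {x : ℝ | ∃ w, (x : UnitAddCircle) = ψ (a w)} := by
  constructor
  · have h1 : IsCompact (Set.range fun w : W => ψ (a w)) := isCompact_range (hψ.comp ha)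
    have h2 : {x : ℝ | ∃ w, (x : UnitAddCircle) = ψ (a w)} = (fun x : ℝ => (x : UnitAddCircle)) ⁻¹' (Set.range fun w : W => ψ (a w)) := by
      ext x
      constructor
      · rintro ⟨w, hw⟩
        exact ⟨w, hw.symm⟩
      · rintro ⟨w, hw⟩
        exact ⟨w, hw.symm⟩
    rw [h2]
    exact h1.isClosed.preimage (AddCircle.continuous_mk' 1)
  · rintro x ⟨w, hw⟩ z
    refine ⟨w, ?_⟩
    rw [← hw, AddCircle.coe_add]
    have h3 : ((z : ℝ) : UnitAddCircle) = 0 := by
      rw [AddCircle.coe_eq_zero_iff]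
      exact ⟨z, by simp⟩
    rw [h3, add_zero]

/-- one product function -/
theorem good_affprod (A : K →+ K) (hA : Continuous A) (a : W → K) (ha : Continuous a) (χ : K →+ UnitAddCircle) (hχ : Continuous χ)
    (h1 : ∃ D : ℕ, ∀ z, χ ((fun w => A w - w)^[D] z) = 0)
    (h2 : ∀ ψ : K →+ UnitAddCircle, Continuous ψ → dch A ψ = 0 → ψ ≠ 0 → volume {x : ℝ | ∃ w, (x : UnitAddCircle) = ψ (a w)} = 0)
    (h3 : ∀ ψ : K →+ UnitAddCircle, Continuous ψ → dch A (dch A ψ) = 0 → dch A ψ ≠ 0 → ∀ (w : W) (q : ℚ), (((q : ℚ) : ℝ) : UnitAddCircle) ≠ dch A ψ (a w))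
    (g : W → ℂ) (C : ℝ) (hC : ∀ w, ‖g w‖ ≤ C) (f : W × K → ℂ) (hf : ∀ w z, f (w, z) = g w * tc (χ z)) : GoodF (affmap A a) f := by
  classical
  -- the degree
  have hex : ∃ D : ℕ, (dch A)^[D] χ = 0 := by
    obtain ⟨D, hD⟩ := h1
    refine ⟨D, AddMonoidHom.ext fun z => ?_⟩
    rw [dch_iter, hD]
    rfl
  have hc : ∀ m, Continuous ((dch A)^[m] χ) := by
    intro m
    induction m with
    | zero => exact hχ
    | succ m ih =>
      rw [Function.iterate_succ_apply']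
      exact dch_cont hA ih
  -- `D` with `(dch A)^[D+1] χ = 0` and the conditions on the top difference
  obtain ⟨D, hD0, hDn, hDq⟩ : ∃ D : ℕ, (dch A)^[D + 1] χ = 0 ∧ volume {x : ℝ | ∃ w, (x : UnitAddCircle) = (dch A)^[D] χ (a w)} = 0 ∧
      (1 ≤ D → ∀ q : ℚ, ((q : ℚ) : ℝ) ∉ {x : ℝ | ∃ w, (x : UnitAddCircle) = (dch A)^[D] χ (a w)}) := by
    obtain ⟨D, hD⟩ : ∃ D, D = Nat.find hex := ⟨_, rfl⟩
    have hD0 := Nat.find_spec hex
    have hDm : ∀ m < D, (dch A)^[m] χ ≠ 0 := fun m hm => Nat.find_min hex (hD ▸ hm)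
    rw [← hD] at hD0
    match D, hD0, hDm with
    | 0, hD0, _ =>
      have h4 : χ = 0 := hD0
      refine ⟨0, ?_, ?_, fun h => absurd h (by norm_num)⟩
      · rw [h4]
        refine AddMonoidHom.ext fun w => ?_
        rw [dch_iter]
        rfl
      · have h5 : {x : ℝ | ∃ w, (x : UnitAddCircle) = (dch A)^[0] χ (a w)} ⊆ Set.range (fun z : ℤ => (z : ℝ)) := by
          rintro x ⟨w, hw⟩
          rw [h4] at hw
          have h6 : (x : UnitAddCircle) = 0 := hw
          rw [AddCircle.coe_eq_zero_iff] at h6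
          obtain ⟨z, hz⟩ := h6
          exact ⟨z, by simpa using hz⟩
        exact measure_mono_null h5 ((Set.countable_range _).measure_zero volume)
    | D + 1, hD0, hDm =>
      refine ⟨D, hD0, ?_, fun h1D q hq => ?_⟩
      · refine h2 _ (hc D) ?_ (hDm D (by omega))
        rw [← Function.iterate_succ_apply' (dch A) D χ]
        exact hD0
      · obtain ⟨D', rfl⟩ : ∃ D', D = D' + 1 := ⟨D - 1, by omega⟩
        obtain ⟨w, hw⟩ := hq
        rw [Function.iterate_succ_apply'] at hw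
        refine h3 ((dch A)^[D'] χ) (hc D') ?_ ?_ w q hw
        · rw [← Function.iterate_succ_apply' (dch A), ← Function.iterate_succ_apply' (dch A)]
          exact hD0
        · rw [← Function.iterate_succ_apply' (dch A)]
          exact hDm (D' + 1) (by omega)
  obtain ⟨hcl, hpe⟩ := chfr_closed (W := W) ha (hc D)
  have hC0 : 0 < |C| + 1 := by positivity
  intro ε hε
  obtain ⟨H₀, h4⟩ := null_top D _ hcl hpe hDn hDq (ε / (|C| + 1)) (by positivity)
  refine ⟨H₀, fun H hH => ?_⟩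
  obtain ⟨N₀, h4⟩ := h4 H hH
  refine ⟨N₀, fun N hN y => ?_⟩
  -- the polynomials
  have h5 : ∀ n : ℕ, ∃ (c : ℝ) (α : Fin (D + 1) → ℝ), α (Fin.last D) * ((D + 1).factorial : ℝ) ∈ {x : ℝ | ∃ w, (x : UnitAddCircle) = (dch A)^[D] χ (a w)} ∧
      ∀ h : ℕ, χ ((fun z => A z + a (y n).1)^[h] (y n).2) = ((c + pol α (h : ℝ) : ℝ) : UnitAddCircle) := by
    intro n
    obtain ⟨γ, hγ⟩ : ∃ γ : ℝ, (γ : UnitAddCircle) = (dch A)^[D] χ (a (y n).1) := QuotientAddGroup.mk_surjective _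
    have h6 := dch_phd A (a (y n).1) D hD0 (y n).2
    rw [← hγ] at h6
    obtain ⟨c, α, h7, h8⟩ := phd_pol D γ _ h6
    refine ⟨c, α, ⟨(y n).1, ?_⟩, h8⟩
    rw [h7, hγ]
  choose c α hα1 hα2 using h5
  have h6 := h4 N hN α hα1
  have h7 : ∀ n ∈ Icc 1 N, ‖∑ h ∈ Icc 1 H, (mu (n + h) : ℂ) * f ((affmap A a)^[h] (y n))‖ ≤
      (|C| + 1) * ‖∑ h ∈ Icc 1 H, (mu (n + h) : ℂ) * ex (pol (α n) (h : ℝ))‖ := by
    intro n _
    have e1 : ∑ h ∈ Icc 1 H, (mu (n + h) : ℂ) * f ((affmap A a)^[h] (y n)) =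
        (g (y n).1 * ex (c n)) * ∑ h ∈ Icc 1 H, (mu (n + h) : ℂ) * ex (pol (α n) (h : ℝ)) := by
      rw [mul_sum]
      refine sum_congr rfl fun h _ => ?_
      have e2 : tc (((c n + pol (α n) (h : ℝ) : ℝ)) : UnitAddCircle) = ex (c n) * ex (pol (α n) (h : ℝ)) := by
        rw [tc_coe, ← ex_add]
        unfold LORT.ev ex
        congr 1
        push_cast
        ring
      rw [affmap_iter, hf, hα2, e2]
      ring
    rw [e1, norm_mul, norm_mul, norm_ex, mul_one]
    refine mul_le_mul_of_nonneg_right ?_ (norm_nonneg _)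
    exact (hC _).trans ((le_abs_self C).trans (by linarith))
  refine (sum_le_sum h7).trans ?_
  rw [← mul_sum]
  refine (mul_le_mul_of_nonneg_left h6 hC0.le).trans (le_of_eq ?_)
  field_simp

/-- all continuous functions -/
theorem good_aff [CompactSpace K] (hK : CSep K) (A : K →+ K) (hA : Continuous A) (a : W → K) (ha : Continuous a)
    (h1 : ∀ χ : K →+ UnitAddCircle, Continuous χ → ∃ D : ℕ, ∀ z, χ ((fun w => A w - w)^[D] z) = 0)
    (h2 : ∀ ψ : K →+ UnitAddCircle, Continuous ψ → dch A ψ = 0 → ψ ≠ 0 → volume {x : ℝ | ∃ w, (x : UnitAddCircle) = ψ (a w)} = 0)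
    (h3 : ∀ ψ : K →+ UnitAddCircle, Continuous ψ → dch A (dch A ψ) = 0 → dch A ψ ≠ 0 → ∀ (w : W) (q : ℚ), (((q : ℚ) : ℝ) : UnitAddCircle) ≠ dch A ψ (a w))
    (f : W × K → ℂ) (hf : Continuous f) : GoodF (affmap A a) f := by
  refine good_lim fun δ hδ => ?_
  obtain ⟨F, hF, hFd⟩ := chA_dense (E := W) hK ⟨f, hf⟩ hδ
  refine ⟨F, ?_, hFd⟩
  clear hFd
  induction hF using Submodule.span_induction with
  | mem F hF =>
    obtain ⟨g, χ, hχ, h⟩ := hF
    exact good_affprod A hA a ha χ hχ (h1 χ hχ) h2 h3 g ‖g‖ (fun w => g.norm_coe_le_norm w) F h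
  | zero => exact good_zero _
  | add F F' _ _ hF hF' => exact good_add hF hF'
  | smul a F _ hF => exact good_smul a hF

end

end Pool.Agent.Lib.MP_3e612f_nt.NF
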