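import Pool.Agent.Lib.MP_3e612f_nt.NF.K.Main

/-! Families along arithmetic progressions. -/

set_option autoImplicit false

namespace Pool.Agent.Lib.MP_3e612f_nt.NF

open Finset
open Pool.Agent.Lib.MP_3e612f_nt.MR (mu ex)

/-- one residue class -/
theorem ap_class {A : Type*} [AddCommMonoid A] (a : ℕ → A) (Q : ℕ) (hQ : 1 ≤ Q) (J r : ℕ) (hr : r < Q) :
    ∑ j ∈ (range J).filter (fun j => j % Q = r), a j = ∑ i ∈ range ((J + Q - 1 - r) / Q), a (Q * i + r) := by
  have key : ∀ i : ℕ, i < (J + Q - 1 - r) / Q ↔ Q * i + r < J := by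
    intro i
    rw [← Nat.succ_le_iff, Nat.le_div_iff_mul_le (by omega)]
    have : i.succ * Q = Q * i + Q := by rw [Nat.succ_mul, mul_comm]
    rw [this]
    omega
  symm
  refine sum_nbij' (fun i => Q * i + r) (fun j => j / Q) ?_ ?_ ?_ ?_ ?_
  · intro i hi
    rw [mem_range] at hi
    rw [mem_filter, mem_range]
    refine ⟨(key i).1 hi, ?_⟩
    rw [Nat.mul_add_mod, Nat.mod_eq_of_lt hr]
  · intro j hj
    rw [mem_filter, mem_range] at hj
    rw [mem_range, key]
    have := Nat.div_add_mod j Q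
    omega
  · intro i _
    change (Q * i + r) / Q = i
    rw [Nat.mul_add_div (by omega), Nat.div_eq_of_lt hr, add_zero]
  · intro j hj
    rw [mem_filter] at hj
    have := Nat.div_add_mod j Q
    change Q * (j / Q) + r = j
    omega
  · intro i _
    rfl

/-- all residue classes -/
theorem ap_split {A : Type*} [AddCommMonoid A] (a : ℕ → A) (Q : ℕ) (hQ : 1 ≤ Q) (J : ℕ) :
    ∑ j ∈ range J, a j = ∑ r ∈ range Q, ∑ i ∈ range ((J + Q - 1 - r) / Q), a (Q * i + r) := by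
  have h1 : ∀ j ∈ range J, j % Q ∈ range Q := fun j _ => mem_range.2 (Nat.mod_lt _ (by omega))
  rw [← sum_fiberwise_of_maps_to h1]
  exact sum_congr rfl fun r hr => ap_class a Q hQ J r (mem_range.1 hr)

/-- The family `n ↦ 1_{n ≡ b (Q)} f_o((n - b)/Q)` satisfies the pair hypothesis. -/
theorem pairhyp_ap (t : ℕ) {ι Om : Type} [Fintype ι] (f : Om → ℕ → ℂ) (fr : Om → ι → ℝ) (hp : PairHyp t f fr) (Q : ℕ) (hQ : 1 ≤ Q) :
    PairHyp t (fun (o : Om × ℕ) (n : ℕ) => if n % Q = o.2 then f o.1 (n / Q) else 0) (fun o => fr o.1) := by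
  intro κ hκ
  have hQ0 : (0 : ℝ) < Q := by exact_mod_cast hQ
  obtain ⟨B, hB⟩ := hp (κ / Q) (by positivity)
  refine ⟨2 * Q * B, fun p q J hp1 hq1 hJ1 o o' s s' h => ?_⟩
  set a : ℕ → ℂ := fun j => (if (s + p * j) % Q = o.2 then f o.1 ((s + p * j) / Q) else 0) *
    (starRingEnd ℂ) (if (s' + q * j) % Q = o'.2 then f o'.1 ((s' + q * j) / Q) else 0) with ha
  have h0 : κ * J ≤ ‖∑ j ∈ range J, a j‖ := h
  rw [ap_split a Q hQ J] at h0
  -- one class
  obtain ⟨r, hr, hr2⟩ : ∃ r ∈ range Q, κ / Q * J ≤ ‖∑ i ∈ range ((J + Q - 1 - r) / Q), a (Q * i + r)‖ := by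
    by_contra hcon
    push Not at hcon
    have h1 : ‖∑ r ∈ range Q, ∑ i ∈ range ((J + Q - 1 - r) / Q), a (Q * i + r)‖ < ∑ r ∈ range Q, κ / Q * J := by
      refine lt_of_le_of_lt (norm_sum_le _ _) ?_
      exact sum_lt_sum_of_nonempty ⟨0, mem_range.2 (by omega)⟩ hcon
    rw [sum_const, card_range, nsmul_eq_mul] at h1
    have h2 : (Q : ℝ) * (κ / Q * J) = κ * J := by field_simp
    linarith
  rw [mem_range] at hr
  set J' : ℕ := (J + Q - 1 - r) / Q with hJ'
  have hJ0 : (0 : ℝ) < J := by exact_mod_cast hJ1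
  have hJ'1 : 1 ≤ J' := by
    rcases Nat.eq_zero_or_pos J' with h1 | h1
    · rw [h1, range_zero, sum_empty, norm_zero] at hr2
      have : 0 < κ / Q * J := by positivity
      linarith
    · exact h1
  have hJ'J : J' ≤ J := by
    rw [hJ']
    refine Nat.div_le_of_le_mul ?_
    have : Q + J ≤ Q * J + 1 := by nlinarith
    omega
  have hJJ' : J ≤ 2 * Q * J' := by
    have h1 := Nat.div_add_mod (J + Q - 1 - r) Q
    rw [← hJ'] at h1
    have h2 := Nat.mod_lt (J + Q - 1 - r) (show 0 < Q by omega)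
    have h3 : Q ≤ Q * J' := Nat.le_mul_of_pos_right Q hJ'1
    have h4 : 2 * Q * J' = Q * J' + Q * J' := by ring
    omega
  -- the terms
  have hterm : ∀ i : ℕ, a (Q * i + r) = if (s + p * r) % Q = o.2 ∧ (s' + q * r) % Q = o'.2 then
      f o.1 ((s + p * r) / Q + p * i) * (starRingEnd ℂ) (f o'.1 ((s' + q * r) / Q + q * i)) else 0 := by
    intro i
    have e1 : s + p * (Q * i + r) = Q * (p * i) + (s + p * r) := by ring
    have e2 : s' + q * (Q * i + r) = Q * (q * i) + (s' + q * r) := by ring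
    have hQp : 0 < Q := by omega
    rw [ha]
    beta_reduce
    rw [e1, e2, Nat.mul_add_mod, Nat.mul_add_mod, Nat.mul_add_div hQp, Nat.mul_add_div hQp]
    by_cases c1 : (s + p * r) % Q = o.2
    · by_cases c2 : (s' + q * r) % Q = o'.2
      · rw [if_pos c1, if_pos c2, if_pos ⟨c1, c2⟩, add_comm (p * i), add_comm (q * i)]
      · rw [if_neg c2, map_zero, mul_zero, if_neg fun h => c2 h.2]
    · rw [if_neg c1, zero_mul, if_neg fun h => c1 h.1]
  by_cases hc : (s + p * r) % Q = o.2 ∧ (s' + q * r) % Q = o'.2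
  · have h1 : ∑ i ∈ range J', a (Q * i + r) = ∑ i ∈ range J', f o.1 ((s + p * r) / Q + p * i) * (starRingEnd ℂ) (f o'.1 ((s' + q * r) / Q + q * i)) :=
      sum_congr rfl fun i _ => by rw [hterm i, if_pos hc]
    rw [h1] at hr2
    have h2 : κ / Q * J' ≤ κ / Q * J := mul_le_mul_of_nonneg_left (by exact_mod_cast hJ'J) (by positivity)
    obtain ⟨m, m', hmm, hm, hm', hd⟩ := hB p q J' hp1 hq1 hJ'1 o.1 o'.1 _ _ (h2.trans hr2)
    have hBB : (B : ℤ) ≤ ((2 * Q * B : ℕ) : ℤ) := by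
      have : B ≤ 2 * Q * B := Nat.le_mul_of_pos_left B (by omega)
      exact_mod_cast this
    refine ⟨m, m', hmm, fun i => (hm i).trans hBB, fun i => (hm' i).trans hBB, hd.trans ?_⟩
    have hJ'0 : (0 : ℝ) < J' := by exact_mod_cast hJ'1
    rw [div_le_div_iff₀ hJ'0 hJ0]
    have h3 : (J : ℝ) ≤ ((2 * Q * J' : ℕ) : ℝ) := by exact_mod_cast hJJ'
    push_cast at h3 ⊢
    have h4 := mul_le_mul_of_nonneg_left h3 (Nat.cast_nonneg (α := ℝ) B)
    linarith
  · exfalso
    have h1 : ∑ i ∈ range J', a (Q * i + r) = 0 := sum_eq_zero fun i _ => by rw [hterm i, if_neg hc]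
    rw [h1, norm_zero] at hr2
    have : 0 < κ / Q * J := by positivity
    linarith

end Pool.Agent.Lib.MP_3e612f_nt.NF
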