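import Pool.Agent.Lib.MP_3e612f_nt.NF.Base

/-! Shift splitting: for shift-invariant families a bound for one window length gives the bound for all larger lengths `H ≤ N`. -/

set_option autoImplicit false

namespace Pool.Agent.Lib.MP_3e612f_nt.NF

open Finset

theorem fr_shift (a : ℕ → ℂ) (ha : ∀ h, ‖a h‖ ≤ 1) (H j : ℕ) :
    ‖∑ i ∈ range H, a (i + 1) - ∑ i ∈ range H, a (i + 1 + j)‖ ≤ 2 * j := by
  induction j with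
  | zero => simp
  | succ j ih =>
    have h1 : ∑ i ∈ range H, a (i + 1 + j) - ∑ i ∈ range H, a (i + 1 + (j + 1)) = a (1 + j) - a (H + 1 + j) := by
      rw [← sum_sub_distrib]
      have h2 := Finset.sum_range_sub' (fun i => a (i + 1 + j)) H
      have h3 : ∀ i ∈ range H, a (i + 1 + j) - a (i + 1 + (j + 1)) = a (i + 1 + j) - a (i + 1 + 1 + j) := by
        intro i _
        congr 2
        ring
      rw [sum_congr rfl h3, h2, zero_add]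
    have h4 : ∑ i ∈ range H, a (i + 1) - ∑ i ∈ range H, a (i + 1 + (j + 1)) =
        (∑ i ∈ range H, a (i + 1) - ∑ i ∈ range H, a (i + 1 + j)) + (a (1 + j) - a (H + 1 + j)) := by
      rw [← h1]
      ring
    rw [h4]
    refine (norm_add_le _ _).trans ?_
    have h5 : ‖a (1 + j) - a (H + 1 + j)‖ ≤ 1 + 1 := (norm_sub_le _ _).trans (add_le_add (ha _) (ha _))
    push_cast
    linarith

theorem fr_icc (a : ℕ → ℂ) (H : ℕ) : ∑ h ∈ Icc 1 H, a h = ∑ i ∈ range H, a (i + 1) := by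
  induction H with
  | zero => simp
  | succ H ih => rw [Finset.sum_Icc_succ_top (by omega), sum_range_succ, ih]

/-- splitting one window into windows of length `H₁` -/
theorem split_one (a : ℕ → ℂ) (ha : ∀ h, ‖a h‖ ≤ 1) (H H₁ : ℕ) (hH₁ : 1 ≤ H₁) :
    ‖∑ h ∈ Icc 1 H, a h‖ ≤ (∑ s ∈ range H, ‖∑ j ∈ Icc 1 H₁, a (s + j)‖) / H₁ + 2 * H₁ := by
  have hpos : (0 : ℝ) < H₁ := by exact_mod_cast hH₁
  have h1 : (H₁ : ℂ) * ∑ h ∈ Icc 1 H, a h = ∑ j ∈ range H₁, (∑ i ∈ range H, a (i + 1) - ∑ i ∈ range H, a (i + 1 + j)) +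
      ∑ s ∈ range H, ∑ j ∈ Icc 1 H₁, a (s + j) := by
    have h2 : ∑ s ∈ range H, ∑ j ∈ Icc 1 H₁, a (s + j) = ∑ j ∈ range H₁, ∑ i ∈ range H, a (i + 1 + j) := by
      rw [sum_comm' (t' := Icc 1 H₁) (s' := fun _ => range H) (by intro x y; constructor <;> rintro ⟨h, h'⟩ <;> exact ⟨h, h'⟩)]
      rw [fr_icc (fun j => ∑ s ∈ range H, a (s + j))]
      refine sum_congr rfl fun j _ => sum_congr rfl fun i _ => ?_
      congr 1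
      ring
    rw [h2, sum_sub_distrib, sub_add_cancel, sum_const, card_range, nsmul_eq_mul, fr_icc]
  have h3 : (H₁ : ℝ) * ‖∑ h ∈ Icc 1 H, a h‖ ≤ H₁ * (2 * H₁) + ∑ s ∈ range H, ‖∑ j ∈ Icc 1 H₁, a (s + j)‖ := by
    have h4 : (H₁ : ℝ) * ‖∑ h ∈ Icc 1 H, a h‖ = ‖(H₁ : ℂ) * ∑ h ∈ Icc 1 H, a h‖ := by
      rw [norm_mul, Complex.norm_natCast]
    rw [h4, h1]
    refine (norm_add_le _ _).trans (add_le_add ?_ (norm_sum_le _ _))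
    refine (norm_sum_le _ _).trans ?_
    have h5 : ∑ j ∈ range H₁, ‖∑ i ∈ range H, a (i + 1) - ∑ i ∈ range H, a (i + 1 + j)‖ ≤ ∑ j ∈ range H₁, (2 * (H₁ : ℝ)) := by
      refine sum_le_sum fun j hj => (fr_shift a ha H j).trans ?_
      have h6 : (j : ℝ) ≤ H₁ := by exact_mod_cast (mem_range.1 hj).le
      linarith
    refine h5.trans (le_of_eq ?_)
    rw [sum_const, card_range, nsmul_eq_mul]
  rw [div_add' _ _ _ hpos.ne', le_div_iff₀ hpos]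
  linarith

/-- shift splitting -/
theorem shift_split (w : ℕ → ℂ) (hw : ∀ n, ‖w n‖ ≤ 1) {Θ : Type*} (φ : Θ → ℕ → ℂ) (hφ : ∀ θ h, ‖φ θ h‖ ≤ 1)
    (σ : ℕ → Θ → Θ) (hσ : ∀ j θ h, φ (σ j θ) h = φ θ (j + h)) (ε : ℝ) (H₁ N₁ : ℕ) (hH₁ : 1 ≤ H₁)
    (h1 : ∀ N : ℕ, N₁ ≤ N → ∀ θ : ℕ → Θ, ∑ n ∈ Icc 1 N, ‖∑ h ∈ Icc 1 H₁, w (n + h) * φ (θ n) h‖ ≤ ε * H₁ * N)
    (H N : ℕ) (hN : N₁ ≤ N) (hH : H ≤ N) (hε : 0 ≤ ε) (θ : ℕ → Θ) :
    ∑ n ∈ Icc 1 N, ‖∑ h ∈ Icc 1 H, w (n + h) * φ (θ n) h‖ ≤ 2 * ε * H * N + 2 * H₁ * N := by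
  have hpos : (0 : ℝ) < H₁ := by exact_mod_cast hH₁
  have h2 : ∀ n ∈ Icc 1 N, ‖∑ h ∈ Icc 1 H, w (n + h) * φ (θ n) h‖ ≤
      (∑ s ∈ range H, ‖∑ j ∈ Icc 1 H₁, w (n + s + j) * φ (σ s (θ n)) j‖) / H₁ + 2 * H₁ := by
    intro n _
    have h3 := split_one (fun h => w (n + h) * φ (θ n) h) (fun h => by
      rw [norm_mul]
      exact mul_le_one₀ (hw _) (norm_nonneg _) (hφ _ _)) H H₁ hH₁
    refine h3.trans (le_of_eq ?_)
    congr 2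
    refine sum_congr rfl fun s _ => ?_
    congr 1
    refine sum_congr rfl fun j _ => ?_
    rw [hσ, add_assoc]
  refine (sum_le_sum h2).trans ?_
  rw [sum_add_distrib, ← sum_div, sum_comm, sum_const, Nat.card_Icc, Nat.add_sub_cancel, nsmul_eq_mul]
  have h4 : ∀ s ∈ range H, ∑ n ∈ Icc 1 N, ‖∑ j ∈ Icc 1 H₁, w (n + s + j) * φ (σ s (θ n)) j‖ ≤ ε * H₁ * (2 * N) := by
    intro s hs
    have hs' := mem_range.1 hs
    have h5 := h1 (N + s) (by omega) (fun m => σ s (θ (m - s)))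
    have h6 : ∑ n ∈ Icc 1 N, ‖∑ j ∈ Icc 1 H₁, w (n + s + j) * φ (σ s (θ n)) j‖ ≤
        ∑ m ∈ Icc 1 (N + s), ‖∑ j ∈ Icc 1 H₁, w (m + j) * φ (σ s (θ (m - s))) j‖ := by
      have h7 : ∑ n ∈ Icc 1 N, ‖∑ j ∈ Icc 1 H₁, w (n + s + j) * φ (σ s (θ n)) j‖ =
          ∑ m ∈ (Icc 1 N).image (fun n => n + s), ‖∑ j ∈ Icc 1 H₁, w (m + j) * φ (σ s (θ (m - s))) j‖ := by
        rw [sum_image (fun x _ y _ h => by simpa using h)]
        refine sum_congr rfl fun n _ => ?_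
        rw [Nat.add_sub_cancel]
      rw [h7]
      refine sum_le_sum_of_subset_of_nonneg ?_ fun _ _ _ => norm_nonneg _
      intro m hm
      obtain ⟨n, hn, rfl⟩ := mem_image.1 hm
      have := mem_Icc.1 hn
      exact mem_Icc.2 ⟨by omega, by omega⟩
    refine h6.trans (h5.trans ?_)
    refine mul_le_mul_of_nonneg_left ?_ (by positivity)
    have : ((N + s : ℕ) : ℝ) ≤ ((2 * N : ℕ) : ℝ) := by exact_mod_cast (by omega : N + s ≤ 2 * N)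
    rw [Nat.cast_mul, Nat.cast_ofNat] at this
    exact this
  have h8 := sum_le_sum h4
  rw [sum_const, card_range, nsmul_eq_mul] at h8
  have h9 : (∑ s ∈ range H, ∑ n ∈ Icc 1 N, ‖∑ j ∈ Icc 1 H₁, w (n + s + j) * φ (σ s (θ n)) j‖) / (H₁ : ℝ) ≤ 2 * ε * H * N := by
    rw [div_le_iff₀ hpos]
    refine h8.trans (le_of_eq ?_)
    ring
  refine (add_le_add h9 le_rfl).trans (le_of_eq ?_)
  ring

/-- full range: for shift-invariant families, `H₀ ≤ H ≤ N`. -/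
theorem full_range (w : ℕ → ℂ) (hw : ∀ n, ‖w n‖ ≤ 1) {Θ : Type*} (φ : Θ → ℕ → ℂ) (hφ : ∀ θ h, ‖φ θ h‖ ≤ 1)
    (σ : ℕ → Θ → Θ) (hσ : ∀ j θ h, φ (σ j θ) h = φ θ (j + h)) (ε : ℝ) (hε : 0 < ε)
    (h1 : ∃ H₀ : ℕ, ∀ H : ℕ, H₀ ≤ H → ∃ N₀ : ℕ, ∀ N : ℕ, N₀ ≤ N → ∀ θ : ℕ → Θ,
      ∑ n ∈ Icc 1 N, ‖∑ h ∈ Icc 1 H, w (n + h) * φ (θ n) h‖ ≤ ε / 4 * H * N) :
    ∃ H₀ : ℕ, ∀ H N : ℕ, H₀ ≤ H → H ≤ N → ∀ θ : ℕ → Θ,
      ∑ n ∈ Icc 1 N, ‖∑ h ∈ Icc 1 H, w (n + h) * φ (θ n) h‖ ≤ ε * H * N := by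
  obtain ⟨H₁, h1⟩ := h1
  obtain ⟨N₁, h1⟩ := h1 (H₁ + 1) (by omega)
  refine ⟨max N₁ ⌈4 * ((H₁ + 1 : ℕ) : ℝ) / ε⌉₊, fun H N hH hN θ => ?_⟩
  have h2 := shift_split w hw φ hφ σ hσ (ε / 4) (H₁ + 1) N₁ (by omega) h1 H N (by omega) hN (by positivity) θ
  refine h2.trans ?_
  have h3 : 4 * ((H₁ + 1 : ℕ) : ℝ) / ε ≤ H := (Nat.le_ceil _).trans (by exact_mod_cast (le_max_right _ _).trans hH)
  rw [div_le_iff₀ hε] at h3
  have h4 : 2 * ((H₁ + 1 : ℕ) : ℝ) ≤ ε / 2 * H := by linarith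
  have h5 : 2 * ((H₁ + 1 : ℕ) : ℝ) * N ≤ ε / 2 * H * N := mul_le_mul_of_nonneg_right h4 (by positivity)
  linarith

end Pool.Agent.Lib.MP_3e612f_nt.NF
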