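import Pool.Agent.Lib.MP_3e612f_nt.NF.X.Full

/-! Shift splitting with logarithmic weights: uniformity for `D ≤ H`, `H ^ D ≤ N`. -/

set_option autoImplicit false

namespace Pool.Agent.Lib.MP_3e612f_nt.NF

open Finset

/-- `∑_{n≤N} 1/n ≤ 1 + log N` -/
theorem fr_harm (N : ℕ) (hN : 1 ≤ N) : ∑ n ∈ Icc 1 N, 1 / (n : ℝ) ≤ 1 + Real.log N := by
  induction N, hN using Nat.le_induction with
  | base => simp
  | succ N hN ih =>
    rw [Finset.sum_Icc_succ_top (by omega)]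
    have hN0 : (0 : ℝ) < N := by exact_mod_cast hN
    have h1 : 1 / ((N + 1 : ℕ) : ℝ) ≤ Real.log ((N + 1 : ℕ) : ℝ) - Real.log N := by
      rw [← Real.log_div (by positivity) hN0.ne']
      have h2 := Real.one_sub_inv_le_log_of_pos (show (0 : ℝ) < ((N + 1 : ℕ) : ℝ) / N by positivity)
      refine le_trans (le_of_eq ?_) h2
      push_cast
      field_simp
      ring
    linarith

theorem log_split (w : ℕ → ℂ) (hw : ∀ n, ‖w n‖ ≤ 1) {Θ : Type*} (φ : Θ → ℕ → ℂ) (hφ : ∀ θ h, ‖φ θ h‖ ≤ 1)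
    (σ : ℕ → Θ → Θ) (hσ : ∀ j θ h, φ (σ j θ) h = φ θ (j + h)) (ε : ℝ) (H₁ N₁ : ℕ) (hH₁ : 1 ≤ H₁)
    (h1 : ∀ N : ℕ, N₁ ≤ N → ∀ θ : ℕ → Θ, ∑ n ∈ Icc 1 N, 1 / (n : ℝ) * ‖∑ h ∈ Icc 1 H₁, w (n + h) * φ (θ n) h‖ ≤ ε * H₁ * Real.log N)
    (H N : ℕ) (hN : N₁ ≤ N) (hH1 : 1 ≤ H) (hH : H ≤ N) (hε : 0 ≤ ε) (θ : ℕ → Θ) :
    ∑ n ∈ Icc 1 N, 1 / (n : ℝ) * ‖∑ h ∈ Icc 1 H, w (n + h) * φ (θ n) h‖ ≤
      H * (1 + Real.log H) + 2 * ε * H * Real.log (2 * N) + 2 * H₁ * (1 + Real.log N) := by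
  have hpos : (0 : ℝ) < H₁ := by exact_mod_cast hH₁
  have hN1 : 1 ≤ N := hH1.trans hH
  -- the bound for one window
  have h2 : ∀ n ∈ Icc 1 N, 1 / (n : ℝ) * ‖∑ h ∈ Icc 1 H, w (n + h) * φ (θ n) h‖ ≤
      (if n ≤ H then 1 / (n : ℝ) * H else 0) +
      (∑ s ∈ range H, (2 / ((n + s : ℕ) : ℝ)) * ‖∑ j ∈ Icc 1 H₁, w (n + s + j) * φ (σ s (θ n)) j‖) / H₁ + 1 / (n : ℝ) * (2 * H₁) := by
    intro n hn
    have hn1 := (mem_Icc.1 hn).1
    have hn0 : (0 : ℝ) < n := by exact_mod_cast hn1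
    have hsum0 : 0 ≤ (∑ s ∈ range H, (2 / ((n + s : ℕ) : ℝ)) * ‖∑ j ∈ Icc 1 H₁, w (n + s + j) * φ (σ s (θ n)) j‖) / (H₁ : ℝ) :=
      div_nonneg (sum_nonneg fun s _ => by positivity) hpos.le
    by_cases hnH : n ≤ H
    · rw [if_pos hnH]
      have h3 : ‖∑ h ∈ Icc 1 H, w (n + h) * φ (θ n) h‖ ≤ H := by
        refine (norm_sum_le _ _).trans ?_
        have h4 : ∀ h ∈ Icc 1 H, ‖w (n + h) * φ (θ n) h‖ ≤ 1 := fun h _ => by
          rw [norm_mul]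
          exact mul_le_one₀ (hw _) (norm_nonneg _) (hφ _ _)
        refine (sum_le_sum h4).trans (le_of_eq ?_)
        rw [sum_const, Nat.card_Icc, Nat.add_sub_cancel, nsmul_eq_mul, mul_one]
      have h5 := mul_le_mul_of_nonneg_left h3 (show 0 ≤ 1 / (n : ℝ) by positivity)
      have h6 : 0 ≤ 1 / (n : ℝ) * (2 * H₁) := by positivity
      linarith
    · rw [if_neg hnH, zero_add]
      have h3 := split_one (fun h => w (n + h) * φ (θ n) h) (fun h => by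
        rw [norm_mul]
        exact mul_le_one₀ (hw _) (norm_nonneg _) (hφ _ _)) H H₁ hH₁
      have h4 := mul_le_mul_of_nonneg_left h3 (show 0 ≤ 1 / (n : ℝ) by positivity)
      rw [mul_add] at h4
      refine h4.trans (add_le_add ?_ le_rfl)
      rw [← mul_div_assoc, mul_sum]
      refine div_le_div_of_nonneg_right (sum_le_sum fun s hs => ?_) hpos.le
      have hs' := mem_range.1 hs
      have h5 : ∑ j ∈ Icc 1 H₁, w (n + (s + j)) * φ (θ n) (s + j) = ∑ j ∈ Icc 1 H₁, w (n + s + j) * φ (σ s (θ n)) j :=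
        sum_congr rfl fun j _ => by rw [hσ, add_assoc]
      rw [h5]
      refine mul_le_mul_of_nonneg_right ?_ (norm_nonneg _)
      have h6 : (0 : ℝ) < ((n + s : ℕ) : ℝ) := by exact_mod_cast (by omega : 0 < n + s)
      rw [div_le_div_iff₀ hn0 h6, one_mul]
      have h7 : ((n + s : ℕ) : ℝ) ≤ ((2 * n : ℕ) : ℝ) := by exact_mod_cast (by omega : n + s ≤ 2 * n)
      rw [Nat.cast_mul, Nat.cast_ofNat] at h7
      exact h7
  refine (sum_le_sum h2).trans ?_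
  rw [sum_add_distrib, sum_add_distrib, ← sum_div, sum_comm, ← sum_mul]
  -- the first part
  have hA : ∑ n ∈ Icc 1 N, (if n ≤ H then 1 / (n : ℝ) * H else 0) ≤ H * (1 + Real.log H) := by
    rw [← sum_filter]
    have h3 : (Icc 1 N).filter (fun n => n ≤ H) = Icc 1 H := by
      ext n
      simp only [mem_filter, mem_Icc]
      omega
    rw [h3, ← sum_mul, mul_comm]
    exact mul_le_mul_of_nonneg_left (fr_harm H hH1) (Nat.cast_nonneg _)
  -- the third part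
  have hC : (∑ n ∈ Icc 1 N, 1 / (n : ℝ)) * (2 * H₁) ≤ 2 * H₁ * (1 + Real.log N) := by
    rw [mul_comm]
    exact mul_le_mul_of_nonneg_left (fr_harm N hN1) (by positivity)
  -- the second part
  have h4 : ∀ s ∈ range H, ∑ n ∈ Icc 1 N, (2 / ((n + s : ℕ) : ℝ)) * ‖∑ j ∈ Icc 1 H₁, w (n + s + j) * φ (σ s (θ n)) j‖ ≤
      2 * (ε * H₁ * Real.log (2 * N)) := by
    intro s hs
    have hs' := mem_range.1 hs
    have h5 := h1 (N + s) (by omega) (fun m => σ s (θ (m - s)))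
    have h6 : ∑ n ∈ Icc 1 N, (2 / ((n + s : ℕ) : ℝ)) * ‖∑ j ∈ Icc 1 H₁, w (n + s + j) * φ (σ s (θ n)) j‖ ≤
        2 * ∑ m ∈ Icc 1 (N + s), 1 / (m : ℝ) * ‖∑ j ∈ Icc 1 H₁, w (m + j) * φ (σ s (θ (m - s))) j‖ := by
      have h7 : ∑ n ∈ Icc 1 N, (2 / ((n + s : ℕ) : ℝ)) * ‖∑ j ∈ Icc 1 H₁, w (n + s + j) * φ (σ s (θ n)) j‖ =
          2 * ∑ m ∈ (Icc 1 N).image (fun n => n + s), 1 / (m : ℝ) * ‖∑ j ∈ Icc 1 H₁, w (m + j) * φ (σ s (θ (m - s))) j‖ := by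
        rw [sum_image (fun x _ y _ h => by simpa using h), mul_sum]
        refine sum_congr rfl fun n _ => ?_
        rw [Nat.add_sub_cancel]
        ring
      rw [h7]
      refine mul_le_mul_of_nonneg_left (sum_le_sum_of_subset_of_nonneg ?_ fun m _ _ => by positivity) (by norm_num)
      intro m hm
      obtain ⟨n, hn, rfl⟩ := mem_image.1 hm
      have := mem_Icc.1 hn
      exact mem_Icc.2 ⟨by omega, by omega⟩
    refine h6.trans (mul_le_mul_of_nonneg_left (h5.trans ?_) (by norm_num))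
    refine mul_le_mul_of_nonneg_left (Real.log_le_log (by exact_mod_cast (by omega : 0 < N + s)) ?_) (by positivity)
    have h8 : ((N + s : ℕ) : ℝ) ≤ ((2 * N : ℕ) : ℝ) := by exact_mod_cast (by omega : N + s ≤ 2 * N)
    rw [Nat.cast_mul, Nat.cast_ofNat] at h8
    exact h8
  have h8 := sum_le_sum h4
  rw [sum_const, card_range, nsmul_eq_mul] at h8
  have h9 : (∑ s ∈ range H, ∑ n ∈ Icc 1 N, (2 / ((n + s : ℕ) : ℝ)) * ‖∑ j ∈ Icc 1 H₁, w (n + s + j) * φ (σ s (θ n)) j‖) / (H₁ : ℝ) ≤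
      2 * ε * H * Real.log (2 * N) := by
    rw [div_le_iff₀ hpos]
    refine h8.trans (le_of_eq ?_)
    ring
  exact add_le_add (add_le_add hA h9) hC

/-- For shift-invariant families the logarithmic statement is uniform for `D ≤ H`, `H ^ D ≤ N`. -/
theorem full_range_log (w : ℕ → ℂ) (hw : ∀ n, ‖w n‖ ≤ 1) {Θ : Type*} (φ : Θ → ℕ → ℂ) (hφ : ∀ θ h, ‖φ θ h‖ ≤ 1)
    (σ : ℕ → Θ → Θ) (hσ : ∀ j θ h, φ (σ j θ) h = φ θ (j + h)) (ε : ℝ) (hε : 0 < ε)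
    (h1 : ∃ H₀ : ℕ, ∀ H : ℕ, H₀ ≤ H → ∃ N₀ : ℕ, ∀ N : ℕ, N₀ ≤ N → ∀ θ : ℕ → Θ,
      ∑ n ∈ Icc 1 N, 1 / (n : ℝ) * ‖∑ h ∈ Icc 1 H, w (n + h) * φ (θ n) h‖ ≤ ε / 8 * H * Real.log N) :
    ∃ D : ℕ, ∀ H N : ℕ, D ≤ H → H ^ D ≤ N → ∀ θ : ℕ → Θ,
      ∑ n ∈ Icc 1 N, 1 / (n : ℝ) * ‖∑ h ∈ Icc 1 H, w (n + h) * φ (θ n) h‖ ≤ ε * H * Real.log N := by
  obtain ⟨H₁, h1⟩ := h1
  obtain ⟨N₁, h1⟩ := h1 (H₁ + 1) (by omega)
  -- `D ≥ N₁, 3, 8/ε, 16 (H₁+1)/ε`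
  obtain ⟨D, hD1, hD2, hD3, hD4⟩ : ∃ D : ℕ, N₁ ≤ D ∧ 3 ≤ D ∧ 8 / ε ≤ (D : ℝ) ∧ 16 * ((H₁ + 1 : ℕ) : ℝ) / ε ≤ D := by
    refine ⟨max (max N₁ 3) (max ⌈8 / ε⌉₊ ⌈16 * ((H₁ + 1 : ℕ) : ℝ) / ε⌉₊), ?_, ?_, ?_, ?_⟩
    · exact (le_max_left _ _).trans (le_max_left _ _)
    · exact (le_max_right _ _).trans (le_max_left _ _)
    · exact (Nat.le_ceil _).trans (by exact_mod_cast (le_max_left _ _).trans (le_max_right _ _))
    · exact (Nat.le_ceil _).trans (by exact_mod_cast (le_max_right _ _).trans (le_max_right _ _))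
  refine ⟨D, fun H N hH hN θ => ?_⟩
  have hH3 : 3 ≤ H := hD2.trans hH
  have hHN : H ≤ N := (Nat.le_self_pow (by omega) H).trans hN
  have h2 := log_split w hw φ hφ σ hσ (ε / 8) (H₁ + 1) N₁ (by omega) h1 H N (by omega) (by omega) hHN (by positivity) θ
  refine h2.trans ?_
  have hH0 : (0 : ℝ) < H := by exact_mod_cast (by omega : 0 < H)
  have hN0 : (0 : ℝ) < N := by exact_mod_cast (by omega : 0 < N)
  have hlogH : 1 ≤ Real.log H := by
    rw [Real.le_log_iff_exp_le hH0]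
    have h3 : (3 : ℝ) ≤ H := by exact_mod_cast hH3
    exact (Real.exp_one_lt_d9.le.trans (by norm_num)).trans h3
  have hlogN : (D : ℝ) * Real.log H ≤ Real.log N := by
    rw [← Real.log_pow]
    exact Real.log_le_log (by positivity) (by exact_mod_cast hN)
  have hlogHN : Real.log H ≤ Real.log N := Real.log_le_log hH0 (by exact_mod_cast hHN)
  have hDH : (D : ℝ) ≤ H := by exact_mod_cast hH
  -- first term: `H (1 + log H) ≤ 2 H log H ≤ (ε/4) H log N`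
  have hA : (H : ℝ) * (1 + Real.log H) ≤ ε / 4 * H * Real.log N := by
    have h3 : 1 + Real.log H ≤ 2 * Real.log H := by linarith
    have h4 : 8 * Real.log H ≤ ε * Real.log N := by
      rw [div_le_iff₀ hε] at hD3
      have h5 : 8 * Real.log H ≤ (D : ℝ) * ε * Real.log H := mul_le_mul_of_nonneg_right hD3 (by linarith)
      have h6 := mul_le_mul_of_nonneg_left hlogN hε.le
      linarith
    have h7 := mul_le_mul_of_nonneg_left h3 hH0.le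
    have h8 := mul_le_mul_of_nonneg_left h4 hH0.le
    nlinarith
  -- second term: `log (2N) ≤ 2 log N`
  have hB : 2 * (ε / 8) * H * Real.log (2 * N) ≤ ε / 2 * H * Real.log N := by
    have h3 : Real.log (2 * N) ≤ 2 * Real.log N := by
      rw [Real.log_mul (by norm_num) hN0.ne']
      have h4 : Real.log 2 ≤ Real.log N := Real.log_le_log (by norm_num) (by exact_mod_cast (by omega : 2 ≤ N))
      linarith
    have h5 : 0 ≤ 2 * (ε / 8) * H := by positivity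
    have h6 := mul_le_mul_of_nonneg_left h3 h5
    linarith
  -- third term
  have hC : 2 * ((H₁ + 1 : ℕ) : ℝ) * (1 + Real.log N) ≤ ε / 4 * H * Real.log N := by
    rw [div_le_iff₀ hε] at hD4
    have h3 : 16 * ((H₁ + 1 : ℕ) : ℝ) ≤ H * ε := hD4.trans (mul_le_mul_of_nonneg_right hDH hε.le)
    have h4 : 1 + Real.log N ≤ 2 * Real.log N := by linarith
    have h5 : 2 * ((H₁ + 1 : ℕ) : ℝ) * (1 + Real.log N) ≤ 2 * ((H₁ + 1 : ℕ) : ℝ) * (2 * Real.log N) :=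
      mul_le_mul_of_nonneg_left h4 (by positivity)
    have h6 := mul_le_mul_of_nonneg_right h3 (show 0 ≤ Real.log N by linarith)
    nlinarith
  linarith

end Pool.Agent.Lib.MP_3e612f_nt.NF
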