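import Pool.Agent.Lib.MP_3e612f_nt.NF.X.AbProd

/-! The transfer: all systems whose limit measures are modelled by nil-families. -/

set_option autoImplicit false

namespace Pool.Agent.Lib.MP_3e612f_nt.NF

open Finset MeasureTheory

/-- both kinds of nil-families -/
theorem lus_fam {G : Type} [Group G] [TopologicalSpace G] [IsTopologicalGroup G] {Γ : Subgroup G} {k : ℕ} (M : Mal G Γ k) (hk1 : 1 ≤ k) (hk : LL G k = ⊥)
    {W : Type} [MetricSpace W] [CompactSpace W] (τ : W → W) (hτ : Continuous τ) (Q : ℕ) (hQ : 1 ≤ Q) (hper : ∀ w, τ^[Q] w = w) (u : W → G) (hu : Continuous u)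
    (hfr : ∀ m : M.I 0 → ℤ, m ≠ 0 → MeasureTheory.volume {x : ℝ | ∃ w, x = ∑ i ∈ range Q, dot m (M.p 0 (u (τ^[i] w)))} = 0 ∧
      (k = 1 ∨ ∀ (w : W) (q : ℚ), ∑ i ∈ range Q, dot m (M.p 0 (u (τ^[i] w))) ≠ q)) :
    LOM.LUS (nilmap (Γ := Γ) τ u) Set.univ := by
  by_cases h : k = 1
  · subst h
    exact lus_ab M hk τ hτ Q hQ hper u hu fun m hm => (hfr m hm).1
  · exact lus_nil M hk1 hk τ hτ Q hQ hper u hu fun m hm => ⟨(hfr m hm).1, (hfr m hm).2.resolve_left h⟩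

theorem models_nil {Y : Type} [MetricSpace Y] [CompactSpace Y] [MeasurableSpace Y] [BorelSpace Y]
    (S : Y → Y) (hS : Continuous S) (g : Y → ℂ) (hg : Continuous g) (F : Set (ℕ → Y))
    (H : ∀ ν : Measure Y, IsProbabilityMeasure ν → LOM.DLim S F ν → ∀ ε : ℝ, 0 < ε →
      ∃ (G : Type) (_ : Group G) (_ : TopologicalSpace G) (_ : IsTopologicalGroup G) (Γ : Subgroup G) (k : ℕ) (M : Mal G Γ k)
        (W : Type) (_ : MetricSpace W) (_ : CompactSpace W) (τ : W → W) (Q : ℕ) (u : W → G),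
        1 ≤ k ∧ LL G k = ⊥ ∧ Continuous τ ∧ 1 ≤ Q ∧ (∀ w, τ^[Q] w = w) ∧ Continuous u ∧
        (∀ m : M.I 0 → ℤ, m ≠ 0 → MeasureTheory.volume {x : ℝ | ∃ w, x = ∑ i ∈ range Q, dot m (M.p 0 (u (τ^[i] w)))} = 0 ∧
          (k = 1 ∨ ∀ (w : W) (q : ℚ), ∑ i ∈ range Q, dot m (M.p 0 (u (τ^[i] w))) ≠ q)) ∧
        ∃ (_ : MeasurableSpace (W × (G ⧸ Γ))) (_ : BorelSpace (W × (G ⧸ Γ))) (lam : Measure ((W × (G ⧸ Γ)) × Y)) (f : W × (G ⧸ Γ) → ℂ),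
          IsProbabilityMeasure lam ∧ MeasurePreserving (Prod.map (fun z : W × (G ⧸ Γ) => ((τ z.1, u z.1 • z.2) : W × (G ⧸ Γ))) S) lam lam ∧
          lam.map Prod.snd = ν ∧ Continuous f ∧ ∫ p, ‖g p.2 - f p.1‖ ∂lam ≤ ε) :
    ∀ ε : ℝ, 0 < ε → ∃ h₀ : ℕ, ∀ h ≥ h₀, ∃ N₀ : ℕ, ∀ N ≥ N₀, ∀ y ∈ F,
      ∑ x ∈ range N, ‖∑ n ∈ range h, PI.mc (x + n) * g (S^[n] (y x))‖ ≤ ε * h * N := by
  refine LOM.unif_models S hS g hg F fun ν hν hD ε hε => ?_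
  obtain ⟨G, _, _, _, Γ, k, M, W, _, _, τ, Q, u, h1, h2, h3, h4, h5, h6, h7, hm, hb, lam, f, h8, h9, h10, h11, h12⟩ := H ν hν hD ε hε
  have : CompactSpace (G ⧸ Γ) := quot_cpt M h2
  refine ⟨W × (G ⧸ Γ), inferInstance, hm, inferInstance, nilmap (Γ := Γ) τ u, Set.univ, lus_fam M h1 h2 τ h3 Q h4 h5 u h6 h7, lam, h8, h9, h10,
    Filter.Eventually.of_forall fun _ => Set.mem_univ _, f, h11, ?_, h12⟩
  obtain ⟨C, hC⟩ := (isCompact_univ (X := W × (G ⧸ Γ))).exists_bound_of_continuousOn h11.continuousOn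
  exact ⟨C, fun x => hC x (Set.mem_univ _)⟩

end Pool.Agent.Lib.MP_3e612f_nt.NF
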