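import Pool.Agent.Lib.MP_3e612f_nt.NF.X.NilFull
import Pool.Agent.Lib.MP_3e612f_nt.NF.S.Momo

/-! Theorem (S), strong form, all lengths `H₀ ≤ H ≤ N`. -/

set_option autoImplicit false

namespace Pool.Agent.Lib.MP_3e612f_nt.NF

open Finset
open Pool.Agent.Lib.MP_3e612f_nt.MR (mu ex)

/-- `part_sm` for all lengths `H₀ ≤ H ≤ N`. -/
theorem part_sf {G : Type} [Group G] [TopologicalSpace G] [IsTopologicalGroup G] {Γ : Subgroup G} {k : ℕ} (M : Mal G Γ k) (hk : LL G k = ⊥)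
    {Y : Type} [MetricSpace Y] [CompactSpace Y] (S : Y → Y) (hS : Continuous S)
    (hfix : ∀ U : Set Y, IsOpen U → (∀ y, S y = y → y ∈ U) → ∀ ε : ℝ, 0 < ε → ∃ N₀ : ℕ, ∀ N : ℕ, N₀ ≤ N → ∀ y : Y,
      ((Nat.card {n : ℕ // n < N ∧ S^[n] y ∉ U} : ℕ) : ℝ) ≤ ε * N)
    (g : Y → G) (hg : Continuous g)
    (hfr : ∀ m : M.I 0 → ℤ, m ≠ 0 → MeasureTheory.volume (Fr {x | ∃ y, S y = y ∧ x = dot m (M.p 0 (g y))}) = 0 ∧
      ∀ q : ℚ, (q : ℝ) ∉ Fr {x | ∃ y, S y = y ∧ x = dot m (M.p 0 (g y))})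
    (F : Y × G → ℂ) (hF : Continuous F) (hΓ : ∀ y x, ∀ γ ∈ Γ, F (y, x * γ) = F (y, x)) (ε : ℝ) (hε : 0 < ε) :
    ∃ H₀ : ℕ, ∀ H N : ℕ, H₀ ≤ H → H ≤ N → ∀ p : ℕ → Y × G,
      ∑ n ∈ Icc 1 N, ‖∑ h ∈ Icc 1 H, (mu (n + h) : ℂ) * F ((skew S g)^[h] (p n))‖ ≤ ε * H * N := by
  obtain ⟨D', hD, hdec⟩ : ∃ D : Set G, IsCompact D ∧ ∀ x : G, ∃ r ∈ D, ∃ γ ∈ Γ, x = r * γ := by
    obtain ⟨D, hD, hx⟩ := dec M
    refine ⟨D, hD, fun x => ?_⟩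
    obtain ⟨r, hr, h, hh, γ, hγ, hxe, -⟩ := hx x
    rw [hk, Subgroup.mem_bot] at hh
    exact ⟨r, hr, γ, hγ, by rw [hxe, hh, mul_one]⟩
  obtain ⟨C, hC, hFC⟩ : ∃ C : ℝ, 0 < C ∧ ∀ p, ‖F p‖ ≤ C := by
    obtain ⟨C, hC⟩ := ((isCompact_univ (X := Y)).prod hD).exists_bound_of_continuousOn hF.continuousOn
    refine ⟨max C 1, lt_of_lt_of_le one_pos (le_max_right _ _), fun p => ?_⟩
    obtain ⟨y, x⟩ := p
    obtain ⟨r, hr, γ, hγ, rfl⟩ := hdec x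
    rw [hΓ y r γ hγ]
    exact (hC (y, r) ⟨Set.mem_univ _, hr⟩).trans (le_max_left _ _)
  obtain ⟨D, h1⟩ := part_sm M hk S hS hfix g hg hfr F hF hΓ (ε / 4) (by positivity)
  have hLn : ‖(C : ℂ)‖ = C := by rw [Complex.norm_real, Real.norm_of_nonneg hC.le]
  have hdiv : ∀ (n H : ℕ) (p : Y × G), ‖∑ h ∈ Icc 1 H, (mu (n + h) : ℂ) * (F ((skew S g)^[h] p) / (C : ℂ))‖ =
      ‖∑ h ∈ Icc 1 H, (mu (n + h) : ℂ) * F ((skew S g)^[h] p)‖ / C := by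
    intro n H p
    nth_rewrite 2 [← hLn]
    rw [← norm_div, sum_div]
    congr 1
    exact sum_congr rfl fun h _ => by rw [mul_div_assoc]
  obtain ⟨H₁, h2⟩ := full_range (fun n => (mu n : ℂ)) fr_mu_le (Θ := Y × G)
    (fun p h => F ((skew S g)^[h] p) / (C : ℂ))
    (fun p h => by
      rw [norm_div, hLn, div_le_one hC]
      exact hFC _)
    (fun j p => (skew S g)^[j] p)
    (fun j p h => by
      rw [← Function.iterate_add_apply, add_comm h j])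
    (ε / C) (by positivity)
    ⟨D, fun H hH => by
      refine ⟨D * H, fun N hN p => ?_⟩
      have h4 := h1 H N hH hN p
      rw [sum_congr rfl (fun n _ => hdiv n H (p n)), ← sum_div, div_le_iff₀ hC]
      refine h4.trans (le_of_eq ?_)
      field_simp⟩
  refine ⟨H₁, fun H N hH hN p => ?_⟩
  have h5 := h2 H N hH hN p
  rw [sum_congr rfl (fun n _ => hdiv n H (p n)), ← sum_div, div_le_iff₀ hC] at h5
  refine h5.trans (le_of_eq ?_)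
  field_simp

end Pool.Agent.Lib.MP_3e612f_nt.NF
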