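import Pool.Agent.Lib.MP_3e612f_nt.NF.X.FullLog
import Pool.Agent.Lib.MP_3e612f_nt.NF.X.NilFull
import Pool.Agent.Lib.MP_3e612f_nt.NF.F.A

/-! Theorem (A), logarithmic averages, sets of small measure, uniformly for `D ≤ H`, `H ^ D ≤ N`. -/

set_option autoImplicit false

namespace Pool.Agent.Lib.MP_3e612f_nt.NF

open Finset
open Pool.Agent.Lib.MP_3e612f_nt.MR (mu ex)

/-- `part_a` uniformly for `D ≤ H`, `H ^ D ≤ N`. -/
theorem part_al {G : Type} [Group G] [TopologicalSpace G] [IsTopologicalGroup G] {Γ : Subgroup G} {k : ℕ} (M : Mal G Γ k) (hk : LL G k = ⊥) (F : G → ℂ)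
    (hF : Continuous F) (hΓ : ∀ x, ∀ γ ∈ Γ, F (x * γ) = F x) (ε : ℝ) (hε : 0 < ε) : ∃ η : ℝ, 0 < η ∧ ∃ B : ℕ, ∀ S : Set G,
      (∀ m : M.I 0 → ℤ, m ≠ 0 → (∀ i, |m i| ≤ B) → Small η (Fr {x | ∃ g ∈ S, x = dot m (M.p 0 g)})) →
      ∃ D : ℕ, ∀ H N : ℕ, D ≤ H → H ^ D ≤ N → ∀ g a : ℕ → G, (∀ n, g n ∈ S) →
        ∑ n ∈ Icc 1 N, 1 / (n : ℝ) * ‖∑ h ∈ Icc 1 H, (mu (n + h) : ℂ) * F (g n ^ h * a n)‖ ≤ ε * H * Real.log N := by
  have hadm : Adm Γ k F := by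
    refine ⟨hF, hΓ, fun x h hh => ?_⟩
    rw [hk, Subgroup.mem_bot] at hh
    rw [hh, one_mul]
  obtain ⟨c, C, hC, hbd, -⟩ := pairhyp_nil M hadm
  have hL : 0 < ‖c‖ + C := by positivity
  have hbd' : ∀ x, ‖F x‖ ≤ ‖c‖ + C := by
    intro x
    have h1 : F x = c + (F x - c) := by ring
    rw [h1]
    exact (norm_add_le _ _).trans (add_le_add le_rfl (hbd x))
  obtain ⟨η, hη, B, hB⟩ := part_a M hk F hF hΓ (ε / 8) (by positivity)
  refine ⟨η, hη, B, fun S hS => ?_⟩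
  obtain ⟨H₀, h1⟩ := hB S hS
  have hLn : ‖((‖c‖ + C : ℝ) : ℂ)‖ = ‖c‖ + C := by rw [Complex.norm_real, Real.norm_of_nonneg hL.le]
  have hdiv : ∀ (n H : ℕ) (g a : G), ‖∑ h ∈ Icc 1 H, (mu (n + h) : ℂ) * (F (g ^ h * a) / ((‖c‖ + C : ℝ) : ℂ))‖ =
      ‖∑ h ∈ Icc 1 H, (mu (n + h) : ℂ) * F (g ^ h * a)‖ / (‖c‖ + C) := by
    intro n H g a
    rw [← hLn, ← norm_div, sum_div, hLn]
    congr 1
    exact sum_congr rfl fun h _ => by rw [mul_div_assoc]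
  obtain ⟨H₁, h2⟩ := full_range_log (fun n => (mu n : ℂ)) fr_mu_le (Θ := {g : G // g ∈ S} × G)
    (fun θ h => F ((θ.1 : G) ^ h * θ.2) / ((‖c‖ + C : ℝ) : ℂ))
    (fun θ h => by
      rw [norm_div, hLn, div_le_one hL]
      exact hbd' _)
    (fun j θ => (θ.1, (θ.1 : G) ^ j * θ.2))
    (fun j θ h => by
      simp only
      rw [← mul_assoc, ← pow_add, add_comm h j])
    (ε / (‖c‖ + C)) (by positivity)
    ⟨H₀, fun H hH => by
      obtain ⟨N₀, h3⟩ := h1 H hH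
      refine ⟨N₀, fun N hN θ => ?_⟩
      have h4 := h3 N hN (fun n => ((θ n).1 : G)) (fun n => (θ n).2) (fun n => (θ n).1.2)
      rw [sum_congr rfl (fun n _ => by rw [hdiv n H ((θ n).1 : G) (θ n).2, ← mul_div_assoc]), ← sum_div, div_le_iff₀ hL]
      refine h4.trans (le_of_eq ?_)
      field_simp⟩
  refine ⟨H₁, fun H N hH hN g a hg => ?_⟩
  have h5 := h2 H N hH hN (fun n => (⟨g n, hg n⟩, a n))
  simp only at h5
  rw [sum_congr rfl (fun n _ => by rw [hdiv n H (g n) (a n), ← mul_div_assoc]), ← sum_div, div_le_iff₀ hL] at h5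
  refine h5.trans (le_of_eq ?_)
  field_simp

end Pool.Agent.Lib.MP_3e612f_nt.NF
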