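import Pool.Agent.Lib.MP_3e612f_nt.NF.P.Defs
import Pool.Agent.Lib.MP_3e612f_nt.LO.R.Pol

/-! Polynomial sequences in the circle are real polynomials modulo 1. -/

set_option autoImplicit false

namespace Pool.Agent.Lib.MP_3e612f_nt.NF

open Finset
open Pool.Agent.Lib.MP_3e612f_nt.LORT (PhD)

/-- binomial form -/
theorem phd_binom (D : ℕ) : ∀ (γ : ℝ) (g : ℕ → UnitAddCircle), PhD D (γ : UnitAddCircle) g →
    ∃ c : ℕ → ℝ, c D = γ ∧ ∀ n : ℕ, g n = ((∑ j ∈ range (D + 1), c j * (n.choose j : ℝ) : ℝ) : UnitAddCircle) := by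
  induction D with
  | zero =>
    intro γ g h
    refine ⟨fun _ => γ, rfl, fun n => ?_⟩
    rw [h n]
    simp
  | succ D ih =>
    intro γ g h
    obtain ⟨c, hc, hcn⟩ := ih γ (fun n => g (n + 1) - g n) h
    obtain ⟨c0, hc0⟩ : ∃ c0 : ℝ, (c0 : UnitAddCircle) = g 0 := QuotientAddGroup.mk_surjective (g 0)
    refine ⟨fun j => match j with | 0 => c0 | j + 1 => c j, hc, fun n => ?_⟩
    induction n with
    | zero =>
      rw [← hc0]
      congr 1
      rw [sum_range_succ']
      simp
    | succ n ihn =>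
      have h1 := hcn n
      have h2 : g (n + 1) = (g (n + 1) - g n) + g n := by abel
      beta_reduce at h1
      rw [h2, h1, ihn, ← AddCircle.coe_add]
      congr 1
      rw [sum_range_succ' _ (D + 1), sum_range_succ' _ (D + 1)]
      have h3 : ∀ j ∈ range (D + 1), c j * (((n + 1).choose (j + 1) : ℕ) : ℝ) = c j * ((n.choose (j + 1) : ℕ) : ℝ) + c j * (n.choose j : ℝ) := by
        intro j _
        rw [Nat.choose_succ_succ]
        push_cast
        ring
      rw [sum_congr rfl h3, sum_add_distrib]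
      simp only [Nat.choose_zero_right, Nat.cast_one, mul_one]
      ring

/-- A polynomial sequence of degree `≤ D + 1` in the circle with last difference `γ` is a real polynomial modulo 1 with leading coefficient `γ/(D+1)!`. -/
theorem phd_pol (D : ℕ) (γ : ℝ) (g : ℕ → UnitAddCircle) (h : PhD (D + 1) (γ : UnitAddCircle) g) :
    ∃ (c : ℝ) (α : Fin (D + 1) → ℝ), α (Fin.last D) * ((D + 1).factorial : ℝ) = γ ∧ ∀ n : ℕ, g n = ((c + pol α (n : ℝ) : ℝ) : UnitAddCircle) := by
  obtain ⟨b, hb, hbn⟩ := phd_binom (D + 1) γ g h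
  obtain ⟨P, hP⟩ : ∃ P : Polynomial ℝ, P = ∑ j ∈ range (D + 2), Polynomial.C (b j / (j.factorial : ℝ)) * descPochhammer ℝ j := ⟨_, rfl⟩
  have hdeg : P.natDegree ≤ D + 1 := by
    rw [hP]
    refine Polynomial.natDegree_sum_le_of_forall_le _ _ fun j hj => ?_
    refine (Polynomial.natDegree_C_mul_le _ _).trans ?_
    rw [descPochhammer_natDegree]
    have := mem_range.1 hj
    omega
  have htop : P.coeff (D + 1) = b (D + 1) / ((D + 1).factorial : ℝ) := by
    rw [hP, Polynomial.finsetSum_coeff, sum_range_succ]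
    have h1 : ∑ j ∈ range (D + 1), (Polynomial.C (b j / (j.factorial : ℝ)) * descPochhammer ℝ j).coeff (D + 1) = 0 := by
      refine sum_eq_zero fun j hj => ?_
      rw [Polynomial.coeff_C_mul]
      have h2 : (descPochhammer ℝ j).coeff (D + 1) = 0 := by
        refine Polynomial.coeff_eq_zero_of_natDegree_lt ?_
        rw [descPochhammer_natDegree]
        exact mem_range.1 hj
      rw [h2, mul_zero]
    rw [h1, zero_add, Polynomial.coeff_C_mul]
    have h2 : (descPochhammer ℝ (D + 1)).coeff (D + 1) = 1 := by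
      have h3 := (monic_descPochhammer ℝ (D + 1)).coeff_natDegree
      rwa [descPochhammer_natDegree] at h3
    rw [h2, mul_one]
  have heval : ∀ n : ℕ, P.eval (n : ℝ) = ∑ j ∈ range (D + 2), b j * (n.choose j : ℝ) := by
    intro n
    rw [hP, Polynomial.eval_finsetSum]
    refine sum_congr rfl fun j _ => ?_
    rw [Polynomial.eval_mul, Polynomial.eval_C, descPochhammer_eval_eq_descFactorial, Nat.descFactorial_eq_factorial_mul_choose]
    have h1 : ((j.factorial : ℕ) : ℝ) ≠ 0 := by exact_mod_cast Nat.factorial_ne_zero j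
    push_cast
    field_simp
  refine ⟨P.coeff 0, fun i => P.coeff ((i : ℕ) + 1), ?_, fun n => ?_⟩
  · change P.coeff ((Fin.last D : ℕ) + 1) * ((D + 1).factorial : ℝ) = γ
    rw [Fin.val_last, htop, hb]
    have h1 : (((D + 1).factorial : ℕ) : ℝ) ≠ 0 := by exact_mod_cast Nat.factorial_ne_zero (D + 1)
    field_simp
  · rw [hbn n]
    congr 1
    rw [← heval, Polynomial.eval_eq_sum_range' (show P.natDegree < D + 2 by omega), sum_range_succ']
    unfold pol
    rw [Finset.sum_range]
    simp
    ring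

end Pool.Agent.Lib.MP_3e612f_nt.NF
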